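import Pool.Agent.Helper63.TH.Defs

/-!
# MP_705522_gt, thresholds: goals

Available without hypotheses: everything in `Pool.Agent.Helper53.PT.A` (`aMO, mo_zero, mo_one, mo_pos, mo_mono,
hasDerivAt_f0, hasDerivAt_f1, continuous_f0, aLAW, aBD, aCX, aLIP, aHS, aDER, aPAIR, aDec`) and
`Pool.Agent.Helper53.PT.B` (`bFI, bCH, ...`).  Notation: `F = f0 θ`, `F' = f0 θ'`, `Δ = θ' - θ`,
`D2 = mo θ' 2 - mo θ 2`, `D3 = mo θ' 3 - mo θ 3`, `d3 = m3 θ' - m3 θ` (all `≥ 0` for `θ ≤ θ'`).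
-/

namespace Pool.Agent.Helper63.TH

open MeasureTheory Set Filter Topology
open Pool.Agent.Helper53.PT
open Pool.Agent.Helper63.P705 (NumOK)

/-! ## Analysis -/

/-- (K2B).  `k2 w = (w cos w - sin w)/(2 w³)` (`w ≠ 0`; see `GKER` in `Helper53.PT.GoalsA`, proved in `Helper32.PT.KER`),
`k2` is even, `k2 0 = -1/6`.  Claim `w cos w - sin w ≤ .03 w³` for `w > 0`.
`w ≤ π`: the left side is `≤ 0` (its derivative is `-w sin w`).  `π ≤ w ≤ 3π/2`: `cos w ≤ 0`, so it is `≤ -sin w ≤ min(1, w - π)`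
and `.03 w³ ≥ .93`.  `3π/2 ≤ w ≤ 6`: `w = 2π - s`, `s ∈ [.28, π/2]`: `w cos w - sin w = (2π-s) cos s + sin s`
`≤ 2π (1 - s²/2 + s⁴/24) + s³/3` (`cos s ≤ 1 - s²/2 + s⁴/24`, and `-s cos s + sin s ≤ s³/3`: both vanish at `0`, derivatives
`s sin s ≤ s²`), at most `.03 (2π - s)³` (polynomials; the smallest gap is `.24`, at `s = .5`).
`w ≥ 6`: `w cos w - sin w ≤ √(1+w²) ≤ 1.014 w ≤ .03 w³`. -/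
def GK2B : Prop := ∀ w : ℝ, k2 w ≤ 0.015

/-- (CXO).  `aCX` with `H(s) = cos √(xs) + xs/2 - x²s²/24 + x³s³/720`: with `c(v) = cos √v`, `c'(v) = -sinc(√v)/2`,
`c''(v) = -k2(√v)/2` (`GKER`: derivatives of `v ↦ sinc √v`, `k2 √v`), `H'' = x² (-k2/2 - 1/12 + v/120)`, `v = xs`, and
`k2(√v) ≤ -1/6 + v/60` because `k2 0 = -1/6` and its derivative in `v` is `k3 ≤ 1/60` (`GKER`).  The integral of `H(Y²)` is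
`f0 θ x + x/2 - x² mo θ 2/24 + x³ mo θ 3/720` (`aLAW`).  Second: `H(s) = cos √(xs) + xs/2 + .00375 x²s²`,
`H'' = x² (-k2/2 + .0075) ≥ 0`.  (`Helper9.PT.LIP` is the model.) -/
def GCXO : Prop := (∀ w : ℝ, k2 w ≤ 0.015) → ∀ θ θ' : ℝ, 0 < θ → θ ≤ θ' → θ' < 1 / 2 → ∀ x, 0 ≤ x →
  x ^ 2 / 24 * (mo θ' 2 - mo θ 2) - x ^ 3 / 720 * (mo θ' 3 - mo θ 3) ≤ f0 θ' x - f0 θ x ∧
  -(0.00375 * x ^ 2 * (mo θ' 2 - mo θ 2)) ≤ f0 θ' x - f0 θ x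

/-- (VP).  `aPAIR` with `a = b = 1/2`. -/
def GVP : Prop := ∀ θ : ℝ, 0 < θ → θ < 1 / 2 → V θ 2 = P θ

/-- (MON).  By induction it is enough to show: `V θ m ≤ P θ` implies `V θ (m+1) < V θ m` (`m ≥ 3`).  `s = (1/m,…,1/m,0)` on
`Fin (m+1)` has `G θ s = V θ m` (`f0 θ 0 = 1`), it is on the simplex and not `Good` (it has a zero, and no coordinate is
`1/2`).  A minimiser `t` exists (`aDER`), it is `Good` (`GT θ`), `G θ t ≤ V θ m`, and equality would make `s` a minimiser.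
So `G θ t < V θ m ≤ P θ`.  If `t` is a pair, `G θ t = V θ 2 = P θ`: contradiction.  So `t` is constant, `G θ t = V θ (m+1)`. -/
def GMON : Prop := GVP → ∀ θ : ℝ, 1 / 4 ≤ θ → θ < 1 / 2 → GT θ → ∀ m n : ℕ, 3 ≤ m → m ≤ n →
  (V θ m < P θ → V θ n < P θ) ∧ (m < n → V θ m ≤ P θ → V θ n < V θ m)

/-- (DIF).  `V θ n = ∫ (1 - F(ξ²/n)^n)/ξ² dξ` (integrable: `aHS`), subtract, `x = ξ²/n`, `dξ/ξ² = dx/(2 √n x^(3/2))`.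
The second part is the same with `exp(-(x/2))` in place of `F'`: `∫ (1 - e^(-ξ²/2))/ξ² dξ = √(π/2)`. -/
def GDIF : Prop := ∀ θ : ℝ, 1 / 4 ≤ θ → θ < 1 / 2 → ∀ n : ℕ, 1 ≤ n →
  (∀ θ' : ℝ, 1 / 4 ≤ θ' → θ' < 1 / 2 →
    IntegrableOn (fun x => (f0 θ x ^ n - f0 θ' x ^ n) / (x * √x)) (Ioi 0) ∧
    V θ' n - V θ n = 1 / (2 * √(n : ℝ)) * ∫ x in Ioi (0 : ℝ), (f0 θ x ^ n - f0 θ' x ^ n) / (x * √x)) ∧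
  IntegrableOn (fun x => (Real.exp (-(x / 2)) ^ n - f0 θ x ^ n) / (x * √x)) (Ioi 0) ∧
  V θ n - √(Real.pi / 2) = 1 / (2 * √(n : ℝ)) *
    ∫ x in Ioi (0 : ℝ), (Real.exp (-(x / 2)) ^ n - f0 θ x ^ n) / (x * √x)

/-- (CONT).  `|F^n - F'^n| ≤ n |F - F'| ≤ n min(x²/24 |D2|, 16 |Δ|)` (`aLIP`, `bFI`), so by `GDIF`
`|V θ' n - V θ n| ≤ (√n/2) (|D2|/36 + 32 |Δ|)` (split at `x = 1`); `mo · 2` is continuous on `(0,1)`. -/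
def GCONT : Prop := GFI → GDIF → ∀ n : ℕ, 1 ≤ n → ContinuousOn (fun θ => V θ n) (Ico (1 / 4) (1 / 2))

/-- (CVX).  `log (mo θ j) = log Γ(1+(2j-1)θ) + (j-1) log Γ(1-θ) - j log Γ(1+θ)` is convex on `(0,1)`: it is the limit
(`Real.BohrMollerup.tendsto_logGammaSeq`) of an affine function plus
`∑_{k=1}^N (-log(k+(2j-1)θ) - (j-1) log(k-θ) + j log(k+θ))`, and the second derivative of a summand is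
`(2j-1)²/(k+(2j-1)θ)² + (j-1)/(k-θ)² - j/(k+θ)² ≥ 0` since `(2j-1)/(k+(2j-1)θ) ≥ 1/(k+θ)` and `k-θ ≤ k+θ`.  A limit of convex functions is
convex, and so is the exponential of a convex function.  The same for
`log (m3 θ) = log Γ(1+2θ) + log Γ(1-θ)/2 - 3 log Γ(1+θ)/2` (`2/(k+2θ) ≥ 1/(k+θ)`).  (`Helper8.PT.gMO` is similar.) -/
def GCVX : Prop := (∀ j : ℕ, 2 ≤ j → j ≤ 3 → ConvexOn ℝ (Ioc 0 (1 / 2)) (fun θ => mo θ j)) ∧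
  ConvexOn ℝ (Ioc 0 (1 / 2)) m3

/-- (NG).  Let `θ' → 1/2` in `aLIP` and `bFI`.  `mo θ' j → mo (1/2) j = (2j-1)!! = (2j)!/(2^j j!)` (Gamma is continuous),
`m3 θ' → m3 (1/2)`, and `f0 θ' x → ∑_j (-1)^j x^j/(2^j j!) = exp(-x/2)` by dominated convergence
(`mo θ' j ≤ mo (1/2) j`: `mo_mono`; `tendsto_tsum_of_dominated_convergence`). -/
def GNG : Prop := GFI → ∀ θ : ℝ, 1 / 4 ≤ θ → θ < 1 / 2 → ∀ x, 0 < x →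
  |Real.exp (-(x / 2)) - f0 θ x| ≤ x ^ 2 / 24 * (3 - mo θ 2) ∧
  |Real.exp (-(x / 2)) - f0 θ x| ≤ 0.146 * (x * √x) * (m3 (1 / 2) - m3 θ) ∧
  |Real.exp (-(x / 2)) - f0 θ x| ≤ 16 * (1 / 2 - θ)

/-- (PC).  `sg(1/4)² = Γ(5/4)Γ(3/4) = π√2/4`, `sg(1/2)² = Γ(3/2)Γ(1/2) = π/2` (`Real.Gamma_mul_Gamma_one_sub`).
`LP θ = log(π/2) + (θ-1/2) log 2 - (log Γ(1+θ) + log Γ(1-θ))/2`, `log Γ` is convex on `(0,∞)` (`Real.convexOn_log_Gamma`).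
A concave function is at least its minimum at the end points; `1.2533² ≤ π/2`; `sg θ ≥ 1` (`Γ(1+θ) Γ(1-θ) = πθ/sin(πθ) ≥ 1`) and
`2^(θ-1/2) ≤ 1` give `P ≤ π/2`. -/
def GPC : Prop := ConcaveOn ℝ (Icc (1 / 4) (1 / 2)) LP ∧ ContinuousOn P (Icc (1 / 4) (1 / 2)) ∧
  P (1 / 4) = √(Real.pi / 2) ∧ P (1 / 2) = √(Real.pi / 2) ∧
  ∀ θ, 1 / 4 ≤ θ → θ ≤ 1 / 2 → 1.2533 ≤ P θ ∧ √(Real.pi / 2) ≤ P θ ∧ P θ ≤ 1.571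

/-- (PW). `√(n+1) u^n = √((n+1)/n) u · √n u^(n-1)`, `√(5/4) · .89 ≤ 1`. -/
def GPW : Prop := ∀ (n : ℕ) (u : ℝ), 4 ≤ n → 0 ≤ u → u ≤ 0.89 → √(n : ℝ) * u ^ (n - 1) ≤ 2 * u ^ 3

/-- (SUM).  Split `(0,∞)` at the grid points `xR k` (`xR 0 = 0`, `xR 1152 = 64`, `xR (k+1) - xR k = 2^(shf k - 26)`: `GGRID`),
`∫_64^∞ x^(-3/2) = 1/4`.  (`c k` may be negative.) -/
def GSUM : Prop := GGRID → ∀ (g : ℝ → ℝ) (c : ℕ → ℝ) (d : ℝ), IntegrableOn g (Ioi 0) →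
  (∀ k < 1152, ∀ x, xR k < x → x < xR (k + 1) → g x ≤ c k) → (∀ x, 64 < x → g x ≤ d / (x * √x)) →
  ∫ x in Ioi (0 : ℝ), g x ≤ (∑ k ∈ Finset.range 1152, c k * ((2 : ℝ) ^ N.shf k / 2 ^ 26)) + d / 4

/-! ## Numerics -/

/-- (MG).  `mo θ 2 = Γ(1+3θ)Γ(1-θ)/Γ(1+θ)²`, `θ = a/8192`, `NumOK.gam` at `p = 8192+3a, 8192-a, 8192+a`: relative error
`≤ 4.01 · 2^(-50)`, and one rounding. -/
def GMG : Prop := NumOK → ∀ a : ℕ, 2000 ≤ a → a ≤ 4095 →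
  |(moG a : ℝ) / 2 ^ 40 - mo ((a : ℝ) / 8192) 2| ≤ 2⁻¹ ^ 39

/-- (SLP).  `mo · 2` is convex (`GCVX`), so its difference quotient on `[θ,θ'] ⊆ (0, a/8192]` is at most the one on
`[a,a+1]/8192` and on `[θ,θ'] ⊆ [a/8192, 1/2]` at least the one on `[a-1,a]/8192`; `momN a j = momF a j` (`momN_eq`),
`NumOK.mom`, `NumOK.m3`, `GMG`: each value has error at most `2` units of `2^(-40)`. -/
def GSLP : Prop := NumOK → GCVX → GMG →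
  (∀ a : ℕ, 2048 ≤ a → a ≤ 4094 → ∀ θ θ' : ℝ, 0 < θ → θ ≤ θ' → θ' ≤ (a : ℝ) / 8192 →
    mo θ' 2 - mo θ 2 ≤ (θ' - θ) * vR (b2U a) ∧ mo θ' 3 - mo θ 3 ≤ (θ' - θ) * vR (b3U a) ∧
    m3 θ' - m3 θ ≤ (θ' - θ) * vR (bmU a)) ∧
  (∀ a : ℕ, 2048 ≤ a → a ≤ 4094 → ∀ θ θ' : ℝ, (a : ℝ) / 8192 ≤ θ → θ ≤ θ' → θ' ≤ 1 / 2 →
    (θ' - θ) * vR (b2L a) ≤ mo θ' 2 - mo θ 2)

/-- (PSL).  `S θ = Γ(1+θ)Γ(1-θ)`, `LP θ' - LP θ = (θ'-θ) log 2 - (log S θ' - log S θ)/2`.  `LP` is concave (`GPC`), so its difference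
quotient on `[θ,θ']` is at least the one on `[a,a+1]/8192`, i.e. `log 2 - 4096 log(S_{a+1}/S_a) ≥ log 2 - 4096 (S_{a+1} - S_a)/S_a`
`≥ log 2 - vR (v2 a)` (`NumOK.sg2`, `S ≥ 1`), and at most (second part) the one on `[a-1,a]/8192`, i.e.
`log 2 - 4096 log(S_a/S_{a-1}) ≤ log 2 - 4096 (S_a - S_{a-1})/S_a`.
`762123384785 ≤ 2^40 log 2 ≤ 762123384786`.  `P θ' - P θ ≥ P θ (LP θ' - LP θ)` and `P θ' - P θ ≤ P θ' (LP θ' - LP θ)`, `1.2533 ≤ P ≤ 1.571`. -/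
def GPSL : Prop := NumOK → GPC →
  (∀ a : ℕ, 2048 ≤ a → a ≤ 4094 → ∀ θ θ' : ℝ, 1 / 4 ≤ θ → θ ≤ θ' → θ' ≤ (a : ℝ) / 8192 →
    (θ' - θ) * (1.2533 * vR (pG a) - 1.571 * vR (pS a)) ≤ P θ' - P θ) ∧
  (∀ a : ℕ, 2049 ≤ a → a ≤ 4095 → ∀ θ θ' : ℝ, (a : ℝ) / 8192 ≤ θ → θ ≤ θ' → θ' ≤ 1 / 2 → 0 < pD a →
    P θ' - P θ ≤ -((θ' - θ) * (1.2533 * vR (pD a))))

/-- (DM).  `θ = 1/2 - δ`, `δ ≤ 36/8192`.  `mo θ 2 = Γ(5/2-3δ) Γ(3/2+δ)/((1/2+δ) Γ(3/2-δ)²)`, `mo (1/2) 2 = 3`.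
`log Γ` is convex: `log Γ(5/2-3δ) ≥ log Γ(5/2) - 3δ s1`, `s1` = its difference quotient on `[20480,20481]/8192` (`≤ .7033`);
`log Γ(3/2+δ) ≥ log Γ(3/2) + δ s3`, `s3` = the one on `[12287,12288]/8192` (`≥ .0364`); `log Γ(3/2-δ) ≤ log Γ(3/2) - δ s4`, `s4` = the
one on `[12251,12252]/8192` (`≥ .0323`); `-log(1/2+δ) ≥ log 2 - 2δ`.  So `mo θ 2 ≥ 3 (1 - 4.01 δ)`.  In the same way, with
`m3 θ = Γ(2-2δ) (Γ(3/2+δ)/(1/2+δ))^(1/2) Γ(3/2-δ)^(-3/2)`, `s2` = the quotient on `[16384,16385]/8192` (`≤ .4229`):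
`m3 θ ≥ m3 (1/2) (1 - 1.78 δ)`, `m3 (1/2) = 2√(2/π) ≤ 1.596`.  Values: `NumOK.gam` (relative error `2^(-50)`), `gamN p` by
`decide +kernel` (e.g. `Nat.ble (gamN 20481 * c) (gamN 20480 * d) = true`). -/
def GDM : Prop := NumOK → ∀ θ : ℝ, 4060 / 8192 ≤ θ → θ < 1 / 2 →
  3 - mo θ 2 ≤ 12.1 * (1 / 2 - θ) ∧ m3 (1 / 2) - m3 θ ≤ 2.87 * (1 / 2 - θ)

/-- (N3), `θ` near `1/2`.  `δ = 1/2 - θ ≤ 36/8192`, `a = exp(-(x/2))`, `b = f0 θ x`: `a³ - b³ ≤ 3a²|a-b| + (b⁻)³`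
(`b ≥ 0`: if `a ≥ b`, `a² + ab + b² ≤ 3a²`, else the left side is negative; `b < 0`: `a³ + |b|³`, `a ≤ |a-b|`).  `b⁻ ≤ |a-b| ≤ 16δ`, and `b ≥ 0` for `x ≤ 5.3`
(`e^(-2.65) ≥ 16·36/8192`).  So (`GDIF`, second part, `n = 3`; `GNG`, `GDM`)
`V θ 3 - √(π/2) ≤ (1/(2√3)) ∫ 3 e^(-x) |a-b| x^(-3/2) + (1/(2√3)) (16δ)³ 2/√5.3`
`≤ δ (√3/2) (∫_0^.7 .5042 √x e^(-x) dx + .4191 e^(-.7)) + 1030 δ³`, `e^(-x) ≤ 1 - x + x²/2`: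
`∫_0^.7 √x e^(-x) ≤ .26745`.  Total `≤ .2975 δ + .02 δ`.  `P θ ≥ √(π/2) + 1.2533 vR(pD 4060) δ ≥ √(π/2) + .36 δ` (hypothesis). -/
def GN3 : Prop := GDIF → (∀ θ : ℝ, 1 / 4 ≤ θ → θ < 1 / 2 → ∀ x, 0 < x →
    |Real.exp (-(x / 2)) - f0 θ x| ≤ x ^ 2 / 24 * (3 - mo θ 2) ∧
    |Real.exp (-(x / 2)) - f0 θ x| ≤ 0.146 * (x * √x) * (m3 (1 / 2) - m3 θ) ∧
    |Real.exp (-(x / 2)) - f0 θ x| ≤ 16 * (1 / 2 - θ)) → ∀ θ : ℝ, 4060 / 8192 ≤ θ → θ < 1 / 2 →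
  3 - mo θ 2 ≤ 12.1 * (1 / 2 - θ) → m3 (1 / 2) - m3 θ ≤ 2.87 * (1 / 2 - θ) →
  √(Real.pi / 2) + 0.36 * (1 / 2 - θ) ≤ P θ → V θ 3 < P θ

/-! ## One cell -/

/-- (C3).  `GDIF`, `n = 3`: `V θ' 3 - V θ 3 = -(1/(2√3)) ∫ (F'-F) Q x^(-3/2)`, `Q = F'² + F F' + F² ≥ 0`.  On the grid cell `k`
(`x ∈ [xR k, xR (k+1)]`): `hi = vR (u0F B k)` bounds `|F|, |F'|` (`CHF.b0`), so `Q ≤ 3 hi²`; if `lo B k ≥ 1` then `F, F' ≥ vR (lo B k)`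
(chord: `CHF.c0`, `TBF.pl`), `Q ≥ 3 lo²`.  If `pos B b2l b3 k` then `F' - F ≥ x² D2/24 - x³ D3/720 ≥ Δ x² (b2/24 - x b3/720) ≥ 0`
(`GCXO`, `xgN (k+1) · b3 ≤ 30 · 2^26 · b2l`) and the integrand of `V' - V` is `≤ -(√3/2) Δ lo² √x (b2/24 - x b3/720)`, at most `-(√3/2) Δ` times the value whose
integer version is `gT` (lower bounds: `√x ≥ √(xR k) ≥ sqL`, `x ≤ xR (k+1)`).  Otherwise `F' - F ≥ -min(.00375 x² D2, .146 x^(3/2) d3)` (`GCXO`, `aLIP`)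
and the integrand is `≤ (√3/2) Δ hi² min(.00375 √x b2, .146 bm)`: `lT`.  Beyond `64`: `|F' - F| ≤ 16 Δ` (`bFI`), `Q ≤ 3 c0²`,
`(1/(2√3)) · 3 c0² · 16 Δ · (1/4) = (√3/2) Δ · 4 c0²`: `tQ`.  Sum with `GSUM` (`sumN f n = ∑_{k<n} f k`; every `gT` is rounded down,
every `lT` up; shifts: `2^(shf k - 26)` is the width, `17 ≤ shf k ≤ 24`). -/
def GC3 : Prop := GSQ → GGRID → GSUM → GDIF → GFI →
  (∀ θ θ' : ℝ, 0 < θ → θ ≤ θ' → θ' < 1 / 2 → ∀ x, 0 ≤ x →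
    x ^ 2 / 24 * (mo θ' 2 - mo θ 2) - x ^ 3 / 720 * (mo θ' 3 - mo θ 3) ≤ f0 θ' x - f0 θ x ∧
    -(0.00375 * x ^ 2 * (mo θ' 2 - mo θ 2)) ≤ f0 θ' x - f0 θ x) →
  ∀ (B : N.Base) (a1 a2 : ℕ) (θ θ' : ℝ), Two B a1 a2 θ θ' →
  V θ' 3 - V θ 3 ≤ √3 / 2 * ((θ' - θ) * (vR (l3 B a1 a2) - vR (g3 B a1 a2)))

/-- (C4).  Let `n ≥ 4`.  `GDIF`: `V θ' n - V θ n = (1/(2√n)) ∫ (F^n - F'^n) x^(-3/2)`.  Where `pos` holds, `F' ≥ F ≥ 0`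
(see `GC3`), the integrand is `≤ 0`.  Otherwise `|F^n - F'^n| ≤ n hi^(n-1) |F' - F| ≤ n hi^(n-1) · .146 x^(3/2) d3` (`aLIP`), and
`(1/(2√n)) n hi^(n-1) ≤ hi³` (`GPW`; `jk` says that `hi ≤ .89` on these cells, as `2^50` would appear in the sum otherwise; also
`c0 ≤ .89`).  Beyond `64`: `|F' - F| ≤ 16 Δ`: `(1/(2√n)) n c0^(n-1) · 16 Δ/4 ≤ 4 c0³ Δ`: `tC`. -/
def GC4 : Prop := GSQ → GGRID → GSUM → GDIF → GFI → GPW →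
  (∀ θ θ' : ℝ, 0 < θ → θ ≤ θ' → θ' < 1 / 2 → ∀ x, 0 ≤ x →
    x ^ 2 / 24 * (mo θ' 2 - mo θ 2) - x ^ 3 / 720 * (mo θ' 3 - mo θ 3) ≤ f0 θ' x - f0 θ x) →
  ∀ (B : N.Base) (a1 a2 : ℕ) (θ θ' : ℝ), Two B a1 a2 θ θ' → jk B a1 a2 = true → ∀ n : ℕ, 4 ≤ n →
  V θ' n - V θ n ≤ (θ' - θ) * vR (sl4 B a1 a2)

/-- (C5).  As `GC3`, with `F' - F ≤ min(x² D2/24, .146 x^(3/2) d3)` (`aLIP`) on all grid cells: the integrand of `V θ 3 - V θ' 3` is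
`(1/(2√3)) (F'-F) Q x^(-3/2) ≤ (√3/2) Δ hi² min(√x b2/24, .146 bm)`. -/
def GC5 : Prop := GSQ → GGRID → GSUM → GDIF → GFI →
  ∀ (B : N.Base) (a1 a2 : ℕ) (θ θ' : ℝ), Two B a1 a2 θ θ' →
  V θ 3 - V θ' 3 ≤ √3 / 2 * ((θ' - θ) * vR (w3 B a2))

/-! ## Values at a point -/

/-- (LB).  `lb` is the chord of the lower bounds minus the chord error (`CHF.c0`, `TBF.pl`) minus `2^(-27)` (`1099511635969 = 2^40 + 2^13 + 1`):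
`|y - aR x| ≤ 2^(-26)`, `|f0'| = |f1|/2 ≤ 1/2` (`aBD`).  Also: the floor of `2^26 y` lies in the same grid cell as `y`. -/
def GLB : Prop := GGRID → ∀ (A : ℕ) (B : N.Base) (θ : ℝ), BaseFacts A B θ → TBF B θ → CHF B θ →
  ∀ (x : ℕ) (y : ℝ), x < 2 ^ 32 → aR x ≤ y → y < aR (x + 1) →
    (1 ≤ lb B x → vR (lb B x) ≤ f0 θ y) ∧ |f0 θ y| ≤ vR (N.u0F B (N.idx x))

/-- (VAL).  `aHS` with `t = (1/n,…,1/n)`: `V θ n ≤ π²/6 + 1/4 - ∑_{i≥1} f0(i²/n)^n/i²`.  `n = 4`: all terms are `≥ 0`, drop those with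
`lb = 0` (then `powL 0 4 = 0`) and those with `i > 15`.  `n = 3`: for `i ≤ 13` (`i²/3 < 64`) use `lb` if it is `≥ 1`, else
`f0³ ≥ -sup|f0|³`; for `i ≥ 14`: `f0³ ≥ -c0³` (`BaseFacts.fp`, `i²/3 ≥ 64`) and `∑_{i≥14} 1/i² ≤ 1/13`.  `powL`, `powU`: `GPOW`. -/
def GVAL : Prop := GPOW → GGRID → GLB → ∀ (A : ℕ) (B : N.Base) (θ : ℝ), BaseFacts A B θ → TBF B θ → CHF B θ →
  V θ 3 ≤ Real.pi ^ 2 / 6 + 1 / 4 - vR (tp B 3 13) + vR (tm B) ∧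
  V θ 4 ≤ Real.pi ^ 2 / 6 + 1 / 4 - vR (tp B 4 15)

/-- (PV).  `P θ = (π/2) exp(-((1/2-θ) log 2 + (log S)/2))`, `S = Γ(1+θ)Γ(1-θ) ≥ 1`; `log 2 ≤ 762123384786/2^40`; `v = ⌊2^80/(sg2N b + 2)⌋`
has `vR v ≤ 1/S`, so `log S ≤ vR (lnU v)` (`GLN`, second statement with `w = 1/S`); `GEXP`. -/
def GPV : Prop := GEXP → GLN → NumOK → ∀ b : ℕ, 2048 ≤ b → b < 4096 →
  Real.pi / 2 * vR (pv b) ≤ P ((b : ℝ) / 8192)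

end Pool.Agent.Helper63.TH
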