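import Pool.Agent.Helper63.TH.Goals
import Pool.Agent.Helper63.P705.BS.Fin

/-!
# MP_705522_gt, thresholds: what the checks of one cell give
-/

namespace Pool.Agent.Helper63.TH

open MeasureTheory Set Filter Topology
open Pool.Agent.Helper53.PT
open Pool.Agent.Helper63.P705 (NumOK baseOK base_facts tabP tabS tabT nd_true)

/-- all packets -/
structure Pk : Prop where
  sq : GSQ
  ex : GEXP
  ln : GLN
  po : GPOW
  fl : GFLD
  gr : GGRID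
  tb : GTB
  ch : GCHF
  fi : GFI
  num : NumOK
  k2b : GK2B
  cxo : GCXO
  vp : GVP
  mon : GMON
  dif : GDIF
  cont : GCONT
  cvx : GCVX
  ng : GNG
  pc : GPC
  pw : GPW
  sm : GSUM
  mg : GMG
  slp : GSLP
  psl : GPSL
  dm : GDM
  n3 : GN3
  c3 : GC3
  c4 : GC4
  c5 : GC5
  lb : GLB
  val : GVAL
  pv : GPV

/-- `V_n - P` -/
noncomputable def D (n : ℕ) (θ : ℝ) : ℝ := V θ n - P θ

theorem vR_nn (v : ℕ) : 0 ≤ vR v := div_nonneg (Nat.cast_nonneg _) (by positivity)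

theorem s3_bounds : (0.86602 : ℝ) ≤ √3 / 2 ∧ √3 / 2 ≤ (0.86603 : ℝ) := by
  have h1 : (1.73204 : ℝ) ≤ √3 := Real.le_sqrt_of_sq_le (by norm_num)
  have h2 : √3 ≤ (1.73206 : ℝ) := Real.sqrt_le_iff.2 ⟨by norm_num, by norm_num⟩
  constructor <;> linarith

section
variable (p : Pk)
include p

/-- base data of the cell `[a1,a2]/8192`, centre `A` -/
theorem two_of {A : ℕ} {B : N.Base} (h0 : B.T0 = tabP A) (h1 : B.T1 = tabS A) (h2 : B.T2 = tabT A)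
    (hb : baseOK A B = true) {a1 a2 : ℕ} (e1 : a1 + B.h = A) (e2 : a2 = A + B.h) (l1 : 2048 ≤ a1)
    (l2 : a2 ≤ 4094) {θ θ' : ℝ} (k1 : (a1 : ℝ) / 8192 ≤ θ) (k2 : θ ≤ θ') (k3 : θ' ≤ (a2 : ℝ) / 8192) :
    Two B a1 a2 θ θ' := by
  have f1 : ((A : ℝ) - B.h) / 8192 = (a1 : ℝ) / 8192 := by rw [← e1]; push_cast; ring
  have f2 : ((A : ℝ) + B.h) / 8192 = (a2 : ℝ) / 8192 := by rw [e2]; push_cast; ring
  have b1 : BaseFacts A B θ := base_facts h0 h1 h2 hb (by rw [f1]; exact k1) (by rw [f2]; linarith)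
  have b2 : BaseFacts A B θ' := base_facts h0 h1 h2 hb (by rw [f1]; linarith) (by rw [f2]; exact k3)
  have t1 := p.tb p.sq p.fl p.gr A B θ b1
  have t2 := p.tb p.sq p.fl p.gr A B θ' b2
  have hc : ∀ (t : ℝ), BaseFacts A B t → ∀ x, 64 ≤ x → |f0 t x| ≤ vR B.c0 := by
    intro t ht x hx
    refine (ht.fp.p0 x hx).trans (mul_le_of_le_one_right (vR_nn _) ?_)
    refine Real.rpow_le_one (div_nonneg (by norm_num) (by linarith)) ?_ ?_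
    · rw [div_le_one (by linarith)]; exact hx
    · have := ht.fp.g0; linarith
  have hm1 : (2048 : ℝ) ≤ a1 := by exact_mod_cast l1
  obtain ⟨s1, s2⟩ := p.slp p.num p.cvx p.mg
  have a12 : a1 ≤ a2 := by omega
  obtain ⟨u2, u3, um⟩ := s1 a2 (by omega) l2 θ θ' (by have := b1.th0; linarith) k2 k3
  have hl := s2 a1 l1 (by omega) θ θ' k1 k2 b2.th1.le
  exact ⟨b1.th0, k2, b2.th1, t1, t2, p.ch p.fl p.gr A B θ b1 t1, p.ch p.fl p.gr A B θ' b2 t2,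
    fun x hx => ⟨hc θ b1 x hx, hc θ' b2 x hx⟩, u2, u3, um, hl⟩

theorem cxo' : ∀ θ θ' : ℝ, 0 < θ → θ ≤ θ' → θ' < 1 / 2 → ∀ x, 0 ≤ x →
    x ^ 2 / 24 * (mo θ' 2 - mo θ 2) - x ^ 3 / 720 * (mo θ' 3 - mo θ 3) ≤ f0 θ' x - f0 θ x ∧
    -(0.00375 * x ^ 2 * (mo θ' 2 - mo θ 2)) ≤ f0 θ' x - f0 θ x := p.cxo p.k2b

/-- `V_3` on a cell, upper bound -/
theorem inc3 {B : N.Base} {a1 a2 : ℕ} {θ θ' : ℝ} (h : Two B a1 a2 θ θ') :
    V θ' 3 - V θ 3 ≤ (θ' - θ) * (0.86603 * vR (l3 B a1 a2) - 0.86602 * vR (g3 B a1 a2)) := by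
  refine (p.c3 p.sq p.gr p.sm p.dif p.fi (cxo' p) B a1 a2 θ θ' h).trans ?_
  obtain ⟨s1, s2⟩ := s3_bounds
  have hl := vR_nn (l3 B a1 a2)
  have hg := vR_nn (g3 B a1 a2)
  have h1 : √3 / 2 * vR (l3 B a1 a2) ≤ 0.86603 * vR (l3 B a1 a2) := mul_le_mul_of_nonneg_right s2 hl
  have h2 : 0.86602 * vR (g3 B a1 a2) ≤ √3 / 2 * vR (g3 B a1 a2) := mul_le_mul_of_nonneg_right s1 hg
  have h3 : 0 ≤ θ' - θ := by have := h.h; linarith
  have e : √3 / 2 * ((θ' - θ) * (vR (l3 B a1 a2) - vR (g3 B a1 a2))) =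
      (θ' - θ) * (√3 / 2 * vR (l3 B a1 a2) - √3 / 2 * vR (g3 B a1 a2)) := by ring
  rw [e]
  exact mul_le_mul_of_nonneg_left (by linarith) h3

theorem cell3 {B : N.Base} {a1 a2 : ℕ} (l1 : 2048 ≤ a1) (l12 : a1 ≤ a2) (l2 : a2 ≤ 4094)
    (hk : ok3 B a1 a2 = true) {θ θ' : ℝ} (h : Two B a1 a2 θ θ') (k3 : θ' ≤ (a2 : ℝ) / 8192)
    (hlt : θ < θ') : D 3 θ' < D 3 θ := by
  have i := inc3 p h
  have q := (p.psl p.num p.pc).1 a2 (by omega) l2 θ θ' h.th0 h.h k3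
  unfold ok3 at hk
  rw [Nat.ble_eq] at hk
  have hk' : 86603 * l3 B a1 a2 + 157100 * pS a2 + 1 ≤ 86602 * g3 B a1 a2 + 125330 * pG a2 := hk
  have hr : (86603 * l3 B a1 a2 + 157100 * pS a2 + 1 : ℝ) ≤ 86602 * g3 B a1 a2 + 125330 * pG a2 := by
    exact_mod_cast hk'
  have key : 0.86603 * vR (l3 B a1 a2) - 0.86602 * vR (g3 B a1 a2) <
      1.2533 * vR (pG a2) - 1.571 * vR (pS a2) := by
    unfold vR
    have : (0 : ℝ) < 2 ^ 40 := by norm_num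
    rw [← sub_pos]
    have e : 1.2533 * ((pG a2 : ℝ) / 2 ^ 40) - 1.571 * ((pS a2 : ℝ) / 2 ^ 40) -
        (0.86603 * ((l3 B a1 a2 : ℝ) / 2 ^ 40) - 0.86602 * ((g3 B a1 a2 : ℝ) / 2 ^ 40)) =
        (86602 * g3 B a1 a2 + 125330 * pG a2 - (86603 * l3 B a1 a2 + 157100 * pS a2)) /
          (100000 * 2 ^ 40) := by ring
    rw [e]
    apply div_pos _ (by norm_num)
    linarith
  have h4 := mul_lt_mul_of_pos_left key (sub_pos.2 hlt)
  unfold D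
  linarith

theorem cellm {B : N.Base} {a1 a2 : ℕ} (hk : okm B a1 a2 = true) {θ θ' : ℝ} (h : Two B a1 a2 θ θ') :
    V θ' 3 ≤ V θ 3 := by
  have i := inc3 p h
  unfold okm at hk
  rw [Nat.ble_eq] at hk
  have hk' : 86603 * l3 B a1 a2 ≤ 86602 * g3 B a1 a2 := hk
  have hr : (86603 * l3 B a1 a2 : ℝ) ≤ 86602 * g3 B a1 a2 := by exact_mod_cast hk'
  have key : 0.86603 * vR (l3 B a1 a2) - 0.86602 * vR (g3 B a1 a2) ≤ 0 := by
    unfold vR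
    have e : (0.86603 * ((l3 B a1 a2 : ℝ) / 2 ^ 40) - 0.86602 * ((g3 B a1 a2 : ℝ) / 2 ^ 40)) =
        -((86602 * g3 B a1 a2 - 86603 * l3 B a1 a2) / (100000 * 2 ^ 40)) := by ring
    rw [e, neg_nonpos]
    apply div_nonneg _ (by norm_num)
    linarith
  have h3 : 0 ≤ θ' - θ := by have := h.h; linarith
  have h4 := mul_nonpos_of_nonneg_of_nonpos h3 key
  linarith

theorem inc4 {B : N.Base} {a1 a2 : ℕ} {θ θ' : ℝ} (h : Two B a1 a2 θ θ') (hj : jk B a1 a2 = true)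
    {n : ℕ} (hn : 4 ≤ n) : V θ' n - V θ n ≤ (θ' - θ) * vR (sl4 B a1 a2) :=
  p.c4 p.sq p.gr p.sm p.dif p.fi p.pw (fun θ θ' h0 h1 h2 x hx => (cxo' p θ θ' h0 h1 h2 x hx).1)
    B a1 a2 θ θ' h hj n hn

theorem cell4 {B : N.Base} {a1 a2 : ℕ} (l1 : 2048 ≤ a1) (l12 : a1 ≤ a2) (l2 : a2 ≤ 4094)
    (hk : ok4 B a1 a2 = true) {θ θ' : ℝ} (h : Two B a1 a2 θ θ') (k3 : θ' ≤ (a2 : ℝ) / 8192)
    (hlt : θ < θ') {n : ℕ} (hn : 4 ≤ n) : D n θ' < D n θ := by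
  unfold ok4 at hk
  have hj : jk B a1 a2 = true := by
    rcases hjj : jk B a1 a2 with _ | _
    · rw [hjj] at hk; exact absurd hk (by simp)
    · rfl
  rw [hj, cond_true, Nat.ble_eq] at hk
  have i := inc4 p h hj hn
  have q := (p.psl p.num p.pc).1 a2 (by omega) l2 θ θ' h.th0 h.h k3
  have hk' : 100000 * sl4 B a1 a2 + 157100 * pS a2 + 1 ≤ 125330 * pG a2 := hk
  have hr : (100000 * sl4 B a1 a2 + 157100 * pS a2 + 1 : ℝ) ≤ 125330 * pG a2 := by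
    exact_mod_cast hk'
  have key : vR (sl4 B a1 a2) < 1.2533 * vR (pG a2) - 1.571 * vR (pS a2) := by
    unfold vR
    rw [← sub_pos]
    have e : 1.2533 * ((pG a2 : ℝ) / 2 ^ 40) - 1.571 * ((pS a2 : ℝ) / 2 ^ 40) -
        (sl4 B a1 a2 : ℝ) / 2 ^ 40 =
        (125330 * pG a2 - (100000 * sl4 B a1 a2 + 157100 * pS a2)) /
          (100000 * 2 ^ 40) := by ring
    rw [e]
    apply div_pos _ (by norm_num)
    linarith
  have h4 := mul_lt_mul_of_pos_left key (sub_pos.2 hlt)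
  unfold D
  linarith

theorem cellT {B : N.Base} {a1 a2 : ℕ} (hk : okT B a1 a2 = true) {θ θ' : ℝ} (h : Two B a1 a2 θ θ') :
    V θ' 4 - V θ 4 ≤ (107312334870 / 2 ^ 40) * (θ' - θ) := by
  unfold okT at hk
  have hj : jk B a1 a2 = true := by
    rcases hjj : jk B a1 a2 with _ | _
    · rw [hjj] at hk; exact absurd hk (by simp)
    · rfl
  rw [hj, cond_true, Nat.ble_eq] at hk
  refine (inc4 p h hj le_rfl).trans ?_
  rw [mul_comm]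
  have h3 : 0 ≤ θ' - θ := by have := h.h; linarith
  refine mul_le_mul_of_nonneg_right ?_ h3
  unfold vR
  have : (sl4 B a1 a2 : ℝ) ≤ 107312334870 := by exact_mod_cast hk
  exact div_le_div_of_nonneg_right this (by norm_num)

theorem cell5 {B : N.Base} {a1 a2 : ℕ} (l1 : 2049 ≤ a1) (l12 : a1 ≤ a2) (l2 : a2 ≤ 4094)
    (hk : ok5 B a1 a2 = true) {θ θ' : ℝ} (h : Two B a1 a2 θ θ') (k1 : (a1 : ℝ) / 8192 ≤ θ)
    (hlt : θ < θ') : D 3 θ < D 3 θ' := by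
  have i := p.c5 p.sq p.gr p.sm p.dif p.fi B a1 a2 θ θ' h
  unfold ok5 at hk
  rw [Nat.ble_eq] at hk
  have hk' : 86603 * w3 B a2 + 1 ≤ 125330 * pD a1 := hk
  have hp : 0 < pD a1 := by
    rcases Nat.eq_zero_or_pos (pD a1) with h0 | h0
    · rw [h0] at hk'; omega
    · exact h0
  have q := (p.psl p.num p.pc).2 a1 l1 (by omega) θ θ' k1 h.h h.th1.le hp
  have hr : (86603 * w3 B a2 + 1 : ℝ) ≤ 125330 * pD a1 := by exact_mod_cast hk'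
  have key : 0.86603 * vR (w3 B a2) < 1.2533 * vR (pD a1) := by
    unfold vR
    rw [← sub_pos]
    have e : 1.2533 * ((pD a1 : ℝ) / 2 ^ 40) - 0.86603 * ((w3 B a2 : ℝ) / 2 ^ 40) =
        (125330 * pD a1 - 86603 * w3 B a2) / (100000 * 2 ^ 40) := by ring
    rw [e]
    apply div_pos _ (by norm_num)
    linarith
  obtain ⟨s1, s2⟩ := s3_bounds
  have h5 : √3 / 2 * vR (w3 B a2) ≤ 0.86603 * vR (w3 B a2) :=
    mul_le_mul_of_nonneg_right s2 (vR_nn _)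
  have h4 := mul_lt_mul_of_pos_left (lt_of_le_of_lt h5 key) (sub_pos.2 hlt)
  have e : √3 / 2 * ((θ' - θ) * vR (w3 B a2)) = (θ' - θ) * (√3 / 2 * vR (w3 B a2)) := by ring
  rw [e] at i
  unfold D
  linarith

end

/-! ## gluing -/

theorem glueA {g : ℝ → ℝ} {a b c d : ℝ} (h1 : StrictAntiOn g (Icc a b)) (h2 : StrictAntiOn g (Icc c d))
    (hcb : c ≤ b) (hbd : b ≤ d) : StrictAntiOn g (Icc a d) := by
  intro x hx y hy hxy
  rcases le_or_gt y b with h | h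
  · exact h1 ⟨hx.1, hxy.le.trans h⟩ ⟨hy.1, h⟩ hxy
  · rcases le_or_gt c x with h' | h'
    · exact h2 ⟨h', hx.2⟩ ⟨h'.trans hxy.le, hy.2⟩ hxy
    · have hxb : x < b := h'.trans_le hcb
      have k1 := h1 ⟨hx.1, hxb.le⟩ ⟨hx.1.trans hxb.le, le_rfl⟩ hxb
      have k2 := h2 ⟨hcb, hbd⟩ ⟨hcb.trans h.le, hy.2⟩ h
      exact k2.trans k1

theorem glueM {g : ℝ → ℝ} {a b c d : ℝ} (h1 : StrictMonoOn g (Icc a b)) (h2 : StrictMonoOn g (Icc c d))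
    (hcb : c ≤ b) (hbd : b ≤ d) : StrictMonoOn g (Icc a d) := by
  intro x hx y hy hxy
  rcases le_or_gt y b with h | h
  · exact h1 ⟨hx.1, hxy.le.trans h⟩ ⟨hy.1, h⟩ hxy
  · rcases le_or_gt c x with h' | h'
    · exact h2 ⟨h', hx.2⟩ ⟨h'.trans hxy.le, hy.2⟩ hxy
    · have hxb : x < b := h'.trans_le hcb
      have k1 := h1 ⟨hx.1, hxb.le⟩ ⟨hx.1.trans hxb.le, le_rfl⟩ hxb
      have k2 := h2 ⟨hcb, hbd⟩ ⟨hcb.trans h.le, hy.2⟩ h
      exact k1.trans k2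

theorem glueW {g : ℝ → ℝ} {a b c d : ℝ} (h1 : AntitoneOn g (Icc a b)) (h2 : AntitoneOn g (Icc c d))
    (hcb : c ≤ b) (hbd : b ≤ d) : AntitoneOn g (Icc a d) := by
  intro x hx y hy hxy
  rcases le_or_gt y b with h | h
  · exact h1 ⟨hx.1, hxy.trans h⟩ ⟨hy.1, h⟩ hxy
  · rcases le_or_gt c x with h' | h'
    · exact h2 ⟨h', hx.2⟩ ⟨h'.trans hxy, hy.2⟩ hxy
    · have hxb : x < b := h'.trans_le hcb
      have k1 := h1 ⟨hx.1, hxb.le⟩ ⟨hx.1.trans hxb.le, le_rfl⟩ hxb.le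
      have k2 := h2 ⟨hcb, hbd⟩ ⟨hcb.trans h.le, hy.2⟩ h.le
      exact k2.trans k1

end Pool.Agent.Helper63.TH
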