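import Pool.Agent.Helper63.TH.Goals
import Pool.Agent.Helper34.TH.C3

/-!
# MP_705522_gt, thresholds, packet C5: one cell, `n = 3`, lower bound of the increment
-/

set_option autoImplicit false

namespace Pool.Agent.Helper63.TH

open MeasureTheory Set Filter Topology
open Pool.Agent.Helper53.PT
open Pool.Agent.Helper32.TH (mn_eq sumN_eq vR_nonneg xR_nonneg vR_mono vR_add shift_le qT_le)
open Pool.Agent.Helper34.TH (vR_min shdiv_le sxg_le c146_le)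

attribute [local irreducible] N.xgN N.shf N.sxg N.sqL N.sqU N.u0F N.fld N.tPL N.tST N.cpF
  Pool.Agent.Helper63.TH.lo Pool.Agent.Helper63.TH.b2L Pool.Agent.Helper63.TH.b3U
  Pool.Agent.Helper63.TH.b2U Pool.Agent.Helper63.TH.bmU Nat.shiftLeft Nat.shiftRight

theorem wT_ge (hSQ : GSQ) {B : N.Base} {b2 bm k : ℕ} (hs : N.shf k ≤ 24) :
    vR (N.u0F B k) ^ 2 * min (√(xR (k + 1)) * vR b2 / 24) (0.146 * vR bm) *
      ((2 : ℝ) ^ N.shf k / 2 ^ 26) ≤ vR (wT B b2 bm k) := by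
  unfold wT
  refine le_trans ?_ (qT_le hs)
  apply mul_le_mul_of_nonneg_right _ (by positivity)
  apply mul_le_mul_of_nonneg_left _ (sq_nonneg _)
  rw [vR_min]
  apply min_le_min _ (c146_le bm)
  have e3 := shdiv_le (Nat.mul (N.sxg (Nat.succ k)) b2) 40 24
  have e4 : ((Nat.mul (N.sxg (Nat.succ k)) b2 : ℕ) : ℝ) = (N.sxg (k + 1) : ℝ) * b2 := by
    have : Nat.mul (N.sxg (Nat.succ k)) b2 = N.sxg (k + 1) * b2 := rfl
    rw [this]
    push_cast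
    rfl
  rw [e4] at e3
  have e5 := sxg_le hSQ (k + 1)
  unfold vR
  rw [le_div_iff₀ (by positivity)]
  refine le_trans ?_ e3
  have e6 : √(xR (k + 1)) * ((b2 : ℝ) / 2 ^ 40) / 24 * 2 ^ 40 = 1 / 24 / 2 ^ 40 *
      (√(xR (k + 1)) * 2 ^ 40) * b2 := by ring
  rw [e6]
  calc 1 / 24 / 2 ^ 40 * (√(xR (k + 1)) * 2 ^ 40) * (b2 : ℝ) ≤
        1 / 24 / 2 ^ 40 * (N.sxg (k + 1) : ℝ) * b2 := by gcongr
    _ = (N.sxg (k + 1) : ℝ) * b2 / 2 ^ 40 / (24 : ℕ) := by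
      push_cast
      ring

theorem gC5 : GC5 := by
  intro hSQ hGRID hSUM hDIF hFI B a1 a2 θ θ' h2
  have hθ0 : 0 < θ := by linarith [h2.th0]
  have hΔ : 0 ≤ θ' - θ := by linarith [h2.h]
  have hθ1 : θ < 1 / 2 := by linarith [h2.h, h2.th1]
  obtain ⟨hI, hV⟩ := (hDIF θ' (by linarith [h2.th0, h2.h]) h2.th1 3 (by omega)).1 θ h2.th0 hθ1
  set Δ := θ' - θ with hΔd
  set b2u : ℝ := vR (b2U a2) with hb2u
  set bm : ℝ := vR (bmU a2) with hbm
  have hb2u0 : 0 ≤ b2u := vR_nonneg _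
  have hbm0 : 0 ≤ bm := vR_nonneg _
  have h3 : (0 : ℝ) < √3 := Real.sqrt_pos.mpr (by norm_num)
  have hc0 : 0 ≤ √3 / 2 * Δ := mul_nonneg (div_nonneg h3.le (by norm_num)) hΔ
  have hcst : 1 / (2 * √((3 : ℕ) : ℝ)) * 3 = √3 / 2 := by
    have h33 : √3 * √3 = (3 : ℝ) := Real.mul_self_sqrt (by norm_num)
    push_cast
    rw [div_mul_eq_mul_div, one_mul, div_eq_div_iff (by positivity) (by norm_num)]
    linarith
  have hfac : ∀ x, f0 θ' x ^ 3 - f0 θ x ^ 3 =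
      (f0 θ' x - f0 θ x) * (f0 θ' x ^ 2 + f0 θ x * f0 θ' x + f0 θ x ^ 2) := fun x => by ring
  have hQ0 : ∀ x, 0 ≤ f0 θ' x ^ 2 + f0 θ x * f0 θ' x + f0 θ x ^ 2 := fun x => by
    nlinarith [sq_nonneg (f0 θ' x + f0 θ x), sq_nonneg (f0 θ' x), sq_nonneg (f0 θ x)]
  have key : ∀ x, 0 < x → ∀ hi M : ℝ, 0 ≤ hi → |f0 θ x| ≤ hi → |f0 θ' x| ≤ hi → 0 ≤ M →
      f0 θ' x - f0 θ x ≤ M →
      1 / (2 * √((3 : ℕ) : ℝ)) * ((f0 θ' x ^ 3 - f0 θ x ^ 3) / (x * √x)) ≤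
        √3 / 2 * (hi ^ 2 * (M / (x * √x))) := by
    intro x hx hi M h0 ha hb hM0 hM
    have hxx : 0 < x * √x := mul_pos hx (Real.sqrt_pos.mpr hx)
    have hQ1 : f0 θ' x ^ 2 + f0 θ x * f0 θ' x + f0 θ x ^ 2 ≤ 3 * hi ^ 2 := by
      have e1 : f0 θ x ^ 2 ≤ hi ^ 2 := sq_le_sq' (abs_le.mp ha).1 (abs_le.mp ha).2
      have e2 : f0 θ' x ^ 2 ≤ hi ^ 2 := sq_le_sq' (abs_le.mp hb).1 (abs_le.mp hb).2
      nlinarith [sq_nonneg (f0 θ x - f0 θ' x)]
    have e3 : f0 θ' x ^ 3 - f0 θ x ^ 3 ≤ M * (3 * hi ^ 2) := by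
      rw [hfac]
      exact (mul_le_mul_of_nonneg_right hM (hQ0 x)).trans (mul_le_mul_of_nonneg_left hQ1 hM0)
    have e4 : (f0 θ' x ^ 3 - f0 θ x ^ 3) / (x * √x) ≤ M * (3 * hi ^ 2) / (x * √x) :=
      div_le_div_of_nonneg_right e3 hxx.le
    calc 1 / (2 * √((3 : ℕ) : ℝ)) * ((f0 θ' x ^ 3 - f0 θ x ^ 3) / (x * √x)) ≤
          1 / (2 * √((3 : ℕ) : ℝ)) * (M * (3 * hi ^ 2) / (x * √x)) :=
          mul_le_mul_of_nonneg_left e4 (by positivity)
      _ = 1 / (2 * √((3 : ℕ) : ℝ)) * 3 * (hi ^ 2 * (M / (x * √x))) := by ring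
      _ = _ := by rw [hcst]
  have hcell : ∀ k < 1152, ∀ x, xR k < x → x < xR (k + 1) →
      1 / (2 * √((3 : ℕ) : ℝ)) * ((f0 θ' x ^ 3 - f0 θ x ^ 3) / (x * √x)) ≤
      √3 / 2 * Δ * (vR (N.u0F B k) ^ 2 * min (√(xR (k + 1)) * b2u / 24) (0.146 * bm)) := by
    intro k hk x hx0 hx1
    have hx : 0 < x := lt_of_le_of_lt (xR_nonneg k) hx0
    have hsx : 0 < √x := Real.sqrt_pos.mpr hx
    have hxx : 0 < x * √x := mul_pos hx hsx
    have hss : √x * √x = x := Real.mul_self_sqrt hx.le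
    have m0 : (0 : ℝ) ≤ min (√(xR (k + 1)) * b2u / 24) (0.146 * bm) :=
      le_min (by positivity) (by positivity)
    have e1 := key x hx (vR (N.u0F B k))
      (Δ * (min (√(xR (k + 1)) * b2u / 24) (0.146 * bm) * (x * √x))) (vR_nonneg _)
      (h2.ch.b0 k hk x hx0.le hx1.le) (h2.ch'.b0 k hk x hx0.le hx1.le)
      (mul_nonneg hΔ (mul_nonneg m0 hxx.le)) ?_
    · refine e1.trans (le_of_eq ?_)
      rw [mul_div_assoc, mul_div_assoc, div_self hxx.ne', mul_one]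
      ring
    · rcases min_choice (√(xR (k + 1)) * b2u / 24) (0.146 * bm) with hm | hm
      · rw [hm]
        have r1 : √x ≤ √(xR (k + 1)) := Real.sqrt_le_sqrt hx1.le
        have r2 : f0 θ' x - f0 θ x ≤ x ^ 2 / 24 * (mo θ' 2 - mo θ 2) :=
          (le_abs_self _).trans (aLIP hθ0 h2.h h2.th1 hx.le).1
        have r3 : x ^ 2 / 24 * (mo θ' 2 - mo θ 2) ≤ x ^ 2 / 24 * (Δ * b2u) :=
          mul_le_mul_of_nonneg_left h2.u2 (by positivity)
        have r4 : x ^ 2 / 24 * (Δ * b2u) = Δ * (√x * b2u / 24 * (x * √x)) := by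
          calc x ^ 2 / 24 * (Δ * b2u) = Δ * b2u / 24 * x * x := by ring
            _ = Δ * b2u / 24 * x * (√x * √x) := by rw [hss]
            _ = _ := by ring
        have r5 : Δ * (√x * b2u / 24 * (x * √x)) ≤
            Δ * (√(xR (k + 1)) * b2u / 24 * (x * √x)) := by gcongr
        linarith
      · rw [hm]
        have r1 := (aLIP hθ0 h2.h h2.th1 hx.le).2.1
        have r2 : f0 θ' x - f0 θ x ≤ 0.146 * (x * √x) * (m3 θ' - m3 θ) :=
          (le_abs_self _).trans r1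
        have r3 : 0.146 * (x * √x) * (m3 θ' - m3 θ) ≤ 0.146 * (x * √x) * (Δ * bm) :=
          mul_le_mul_of_nonneg_left h2.um (by positivity)
        have r4 : 0.146 * (x * √x) * (Δ * bm) = Δ * (0.146 * bm * (x * √x)) := by ring
        linarith
  have htail : ∀ x, 64 < x → 1 / (2 * √((3 : ℕ) : ℝ)) * ((f0 θ' x ^ 3 - f0 θ x ^ 3) / (x * √x)) ≤
      (√3 / 2 * (16 * Δ) * vR B.c0 ^ 2) / (x * √x) := by
    intro x hx
    have hx0 : 0 < x := by linarith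
    have e1 := key x hx0 (vR B.c0) (16 * Δ) (vR_nonneg _) (h2.c0 x hx.le).1 (h2.c0 x hx.le).2
      (by positivity) ((le_abs_self _).trans (hFI θ θ' h2.th0 h2.h h2.th1 x hx0).1)
    refine e1.trans (le_of_eq ?_)
    ring
  have hgI : IntegrableOn (fun x => 1 / (2 * √((3 : ℕ) : ℝ)) *
      ((f0 θ' x ^ 3 - f0 θ x ^ 3) / (x * √x))) (Ioi 0) := hI.const_mul _
  have hmain := hSUM hGRID _ _ _ hgI hcell htail
  rw [hV, ← integral_const_mul]
  refine hmain.trans ?_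
  have hterm : ∀ k ∈ Finset.range 1152,
      √3 / 2 * Δ * (vR (N.u0F B k) ^ 2 * min (√(xR (k + 1)) * b2u / 24) (0.146 * bm)) *
        ((2 : ℝ) ^ N.shf k / 2 ^ 26) ≤ √3 / 2 * Δ * vR (wT B (b2U a2) (bmU a2) k) := by
    intro k hk
    rw [Finset.mem_range] at hk
    have hsh := (hGRID.2.2.1 k hk).2.2
    have e1 := wT_ge (B := B) (b2 := b2U a2) (bm := bmU a2) hSQ hsh
    have e3 := mul_le_mul_of_nonneg_left e1 hc0
    refine le_trans (le_of_eq ?_) e3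
    ring
  have hsum := Finset.sum_le_sum hterm
  rw [← Finset.mul_sum] at hsum
  have hlv : ∑ k ∈ Finset.range 1152, vR (wT B (b2U a2) (bmU a2) k) =
      vR (sumN (wT B (b2U a2) (bmU a2)) 1152) := by
    rw [sumN_eq]
    unfold vR
    push_cast
    rw [Finset.sum_div]
  rw [hlv] at hsum
  have hr2 : 4 * vR B.c0 ^ 2 ≤ vR (tQ B) := by
    have e4 := shift_le (4 * (B.c0 * B.c0)) 40
    have e5 : tQ B = Nat.succ (Nat.shiftRight (4 * (B.c0 * B.c0)) 40) := rfl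
    rw [← e5] at e4
    unfold vR
    rw [le_div_iff₀ (by positivity)]
    refine le_trans (le_of_eq ?_) e4
    push_cast
    ring
  have hfin : vR (w3 B a2) = vR (sumN (wT B (b2U a2) (bmU a2)) 1152) + vR (tQ B) := vR_add _ _
  rw [hfin]
  have t2 : √3 / 2 * (16 * Δ) * vR B.c0 ^ 2 / 4 = √3 / 2 * Δ * (4 * vR B.c0 ^ 2) := by ring
  have t4 := mul_le_mul_of_nonneg_left hr2 hc0
  rw [t2]
  calc _ ≤ √3 / 2 * Δ * vR (sumN (wT B (b2U a2) (bmU a2)) 1152) + √3 / 2 * Δ * vR (tQ B) :=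
        add_le_add hsum t4
    _ = _ := by ring

end Pool.Agent.Helper63.TH
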