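import Pool.Agent.Helper53.PT.Chk
import Pool.Agent.Helper63.P705.BS.Chk

/-!
# MP_705522_gt, thresholds: kernel functions

Scales: values, slopes `2^40`; arguments `2^26`; `θ = a/8192`.
-/

noncomputable section

namespace Pool.Agent.Helper63.TH

open Pool.Agent.Helper53.PT
open Pool.Agent.Helper63.P705 (momF m3N sg2N gamN)

/-- about `2^40 mo θ 2` (from the Gamma function) -/
def moG (a : ℕ) : ℕ := Nat.div (Nat.shiftLeft (Nat.mul (gamN (Nat.add 8192 (Nat.mul 3 a)))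
    (gamN (Nat.sub 8192 a))) 40) (Nat.mul (gamN (Nat.add 8192 a)) (gamN (Nat.add 8192 a)))

/-- upper bounds of the slopes of `mo · 2`, `mo · 3`, `m3` to the left of `a/8192` -/
def b2U (a : ℕ) : ℕ := Nat.shiftLeft (Nat.sub (Nat.add (momF (Nat.succ a) 2) 4) (momF a 2)) 13
def b3U (a : ℕ) : ℕ := Nat.shiftLeft (Nat.sub (Nat.add (momF (Nat.succ a) 3) 4) (momF a 3)) 13
def bmU (a : ℕ) : ℕ := Nat.shiftLeft (Nat.sub (Nat.add (m3N (Nat.succ a)) 4) (m3N a)) 13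
/-- lower bound of the slope of `mo · 2` to the right of `a/8192` -/
def b2L (a : ℕ) : ℕ := Nat.shiftLeft (Nat.sub (moG a) (Nat.add (moG (Nat.sub a 1)) 4)) 13

/-- `log P` has slope at least `log 2 - v2 a/2^40` to the left of `a/8192` -/
def v2 (a : ℕ) : ℕ := Nat.succ (Nat.div (Nat.shiftLeft (Nat.sub (Nat.add (sg2N (Nat.succ a)) 4) (sg2N a)) 52)
  (Nat.sub (sg2N a) 2))
/-- `log P` has slope at most `log 2 - v1 a/2^40` to the right of `a/8192` -/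
def v1 (a : ℕ) : ℕ := Nat.div (Nat.shiftLeft (Nat.sub (sg2N a) (Nat.add (sg2N (Nat.sub a 1)) 4)) 52)
  (Nat.add (sg2N a) 2)

/-- `(log 2 - v2)⁺`, `(v2 - log 2)⁺`, `(v1 - log 2)⁺` -/
def pG (a : ℕ) : ℕ := Nat.sub 762123384785 (v2 a)
def pS (a : ℕ) : ℕ := Nat.sub (v2 a) 762123384785
def pD (a : ℕ) : ℕ := Nat.sub (v1 a) 762123384786

/-! ### grid cells -/

/-- lower bound of `f0` on the grid cell `k` (if positive) -/
def lo (B : N.Base) (k : ℕ) : ℕ :=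
  Nat.sub (N.mn (N.fld (N.tPL B) k) (N.fld (N.tPL B) (Nat.succ k)))
    (Nat.add (N.cpF (N.fld (N.tST B) k) (N.shf k)) 1099511627776)

/-- `f0 > 0` on the cell and `x D3/720 ≤ D2/24` -/
def pos (B : N.Base) (b2l b3 k : ℕ) : Bool := cond (Nat.ble 1 (lo B k))
  (Nat.ble (Nat.mul (N.xgN (Nat.succ k)) b3) (Nat.mul 2013265920 b2l)) false

def sumN (f : ℕ → ℕ) (n : ℕ) : ℕ := Nat.rec 0 (fun k ih => Nat.add ih (f k)) n

/-- `lo² √x (b2/24 - x b3/720) width` -/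
def gT (B : N.Base) (b2l b3 k : ℕ) : ℕ := cond (pos B b2l b3 k)
  (Nat.shiftRight (Nat.mul (Nat.mul (Nat.mul (lo B k) (lo B k)) (N.sqL (Nat.shiftLeft (N.xgN k) 54)))
    (Nat.sub (Nat.div b2l 24) (Nat.succ (Nat.div (Nat.shiftRight (Nat.mul (N.xgN (Nat.succ k)) b3) 26) 720))))
    (Nat.sub 146 (N.shf k))) 0

/-- `.146 bm` -/
def c146 (bm : ℕ) : ℕ := Nat.succ (Nat.div (Nat.mul 146 bm) 1000)

/-- `sup f0² · m · width` -/
def qT (B : N.Base) (m k : ℕ) : ℕ :=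
  Nat.succ (Nat.shiftRight (Nat.mul (Nat.mul (N.u0F B k) (N.u0F B k)) m) (Nat.sub 106 (N.shf k)))

/-- `sup f0² min(.00375 √x b2, .146 bm) width` -/
def lT (B : N.Base) (b2l b3 b2 bm k : ℕ) : ℕ := cond (pos B b2l b3 k) 0
  (qT B (N.mn (Nat.succ (Nat.div (Nat.shiftRight (Nat.mul (Nat.mul 3 (N.sxg (Nat.succ k))) b2) 40) 800)) (c146 bm)) k)

/-- `sup f0² min(√x b2/24, .146 bm) width` -/
def wT (B : N.Base) (b2 bm k : ℕ) : ℕ :=
  qT B (N.mn (Nat.succ (Nat.div (Nat.shiftRight (Nat.mul (N.sxg (Nat.succ k)) b2) 40) 24)) (c146 bm)) k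

/-- `sup |f0|³ width` (`sup |f0| ≤ .89`, otherwise `2^50`) -/
def jT (B : N.Base) (b2l b3 k : ℕ) : ℕ := cond (pos B b2l b3 k) 0
  (cond (Nat.ble (N.u0F B k) 978565348720) (qT B (N.u0F B k) k) 1125899906842624)

/-- tails `4 c0²`, `4 c0³` -/
def tQ (B : N.Base) : ℕ := Nat.succ (Nat.shiftRight (Nat.mul 4 (Nat.mul B.c0 B.c0)) 40)
def tC (B : N.Base) : ℕ := Nat.succ (Nat.shiftRight (Nat.mul 4 (Nat.mul (Nat.mul B.c0 B.c0) B.c0)) 80)

def js (B : N.Base) (a1 a2 : ℕ) : ℕ := sumN (jT B (b2L a1) (b3U a2)) 1152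

/-- `V_n(θ') - V_n(θ) ≤ (sl4/2^40) (θ' - θ)`, `n ≥ 4` (cell `[a1,a2]/8192`), if `jk` -/
def sl4 (B : N.Base) (a1 a2 : ℕ) : ℕ :=
  Nat.add (Nat.succ (Nat.shiftRight (Nat.mul (c146 (bmU a2)) (js B a1 a2)) 40)) (tC B)

/-- `sup |f0| ≤ .89` where it is needed -/
def jk (B : N.Base) (a1 a2 : ℕ) : Bool :=
  cond (Nat.ble (js B a1 a2) 1125899906842623) (Nat.ble B.c0 978565348720) false

/-- `V_3(θ') - V_3(θ) ≤ (√3/2) (l3 - g3)/2^40 (θ' - θ)` -/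
def g3 (B : N.Base) (a1 a2 : ℕ) : ℕ := sumN (gT B (b2L a1) (b3U a2)) 1152
def l3 (B : N.Base) (a1 a2 : ℕ) : ℕ := Nat.add (sumN (lT B (b2L a1) (b3U a2) (b2U a2) (bmU a2)) 1152) (tQ B)

/-- `V_3(θ) - V_3(θ') ≤ (√3/2) w3/2^40 (θ' - θ)` -/
def w3 (B : N.Base) (a2 : ℕ) : ℕ := Nat.add (sumN (wT B (b2U a2) (bmU a2)) 1152) (tQ B)

/-- `V_3 - P` is decreasing on the cell -/
def ok3 (B : N.Base) (a1 a2 : ℕ) : Bool := Nat.ble
  (Nat.succ (Nat.add (Nat.mul 86603 (l3 B a1 a2)) (Nat.mul 157100 (pS a2))))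
  (Nat.add (Nat.mul 86602 (g3 B a1 a2)) (Nat.mul 125330 (pG a2)))

/-- `V_3` is decreasing on the cell -/
def okm (B : N.Base) (a1 a2 : ℕ) : Bool := Nat.ble (Nat.mul 86603 (l3 B a1 a2)) (Nat.mul 86602 (g3 B a1 a2))

/-- `V_n - P` is decreasing on the cell, `n ≥ 4` -/
def ok4 (B : N.Base) (a1 a2 : ℕ) : Bool := cond (jk B a1 a2) (Nat.ble
  (Nat.succ (Nat.add (Nat.mul 100000 (sl4 B a1 a2)) (Nat.mul 157100 (pS a2)))) (Nat.mul 125330 (pG a2))) false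

/-- `V_n(θ') - V_n(θ) ≤ .0976 (θ' - θ)` on the cell, `n ≥ 4` -/
def okT (B : N.Base) (a1 a2 : ℕ) : Bool := cond (jk B a1 a2) (Nat.ble (sl4 B a1 a2) 107312334870) false

/-- `V_3 - P` is increasing on the cell -/
def ok5 (B : N.Base) (a1 a2 : ℕ) : Bool := Nat.ble
  (Nat.succ (Nat.mul 86603 (w3 B a2))) (Nat.mul 125330 (pD a1))

/-! ### values at a point (`B.h = 0`) -/

/-- lower bound (if positive) of `f0` at the points `y`, `x ≤ 2^26 y < x + 1` -/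
def lb (B : N.Base) (x : ℕ) : ℕ := N.onCell x (fun k d s => Nat.sub (Nat.shiftRight
  (Nat.add (Nat.mul (N.fld (N.tPL B) k) (Nat.sub (Nat.shiftLeft 1 s) d))
    (Nat.mul (N.fld (N.tPL B) (Nat.succ k)) d)) s)
  (Nat.add (N.cpF (N.fld (N.tST B) k) s) 1099511635969))

/-- `⌊(i+1)² 2^26/n⌋` -/
def xn (n i : ℕ) : ℕ := Nat.div (Nat.shiftLeft (Nat.mul (Nat.succ i) (Nat.succ i)) 26) n

/-- positive terms of `∑ f0(i²/n)^n/i²` -/
def tp (B : N.Base) (n m : ℕ) : ℕ := sumN (fun i =>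
  Nat.div (N.powL (lb B (xn n i)) n) (Nat.mul (Nat.succ i) (Nat.succ i))) m

/-- the other terms, `n = 3` -/
def tm (B : N.Base) : ℕ := Nat.add (sumN (fun i => cond (Nat.ble 1 (lb B (xn 3 i))) 0
  (Nat.succ (Nat.div (N.powU (N.u0F B (N.idx (xn 3 i))) 3) (Nat.mul (Nat.succ i) (Nat.succ i))))) 13)
  (Nat.succ (Nat.div (N.powU B.c0 3) 13))

/-- `P(b/8192) ≥ (π/2) pv/2^40` -/
def pv (b : ℕ) : ℕ := N.expLo (Nat.add (Nat.succ (Nat.shiftRight (Nat.mul (Nat.sub 4096 b) 762123384786) 13))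
  (Nat.succ (Nat.shiftRight (N.lnU (Nat.div (Nat.shiftLeft 1 80) (Nat.add (sg2N b) 2))) 1)))

/-- `V_3(a) < P(b)` -/
def lt3 (B : N.Base) (b : ℕ) : Bool := Nat.ble (Nat.succ (Nat.add (Nat.mul 1894934074 1099511627776)
  (Nat.mul 1000000000 (tm B)))) (Nat.add (Nat.mul 1570796325 (pv b)) (Nat.mul 1000000000 (tp B 3 13)))

/-- `V_4(a) + .0976 r/8192 < P(b)` -/
def lt4 (B : N.Base) (r b : ℕ) : Bool := Nat.ble (Nat.succ (Nat.add (Nat.mul 1894934074 1099511627776)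
  (Nat.mul 1000000000 (Nat.succ (Nat.shiftRight (Nat.mul r 107312334870) 13)))))
  (Nat.add (Nat.mul 1570796325 (pv b)) (Nat.mul 1000000000 (tp B 4 15)))

end Pool.Agent.Helper63.TH
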