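import Pool.Agent.Helper63.TH.Mk
import Pool.Agent.Helper53.PT.Cert.All
import Pool.Agent.Helper63.TH.Cert.K01
import Pool.Agent.Helper63.TH.Cert.K02
import Pool.Agent.Helper63.TH.Cert.K03
import Pool.Agent.Helper63.TH.Cert.K04
import Pool.Agent.Helper63.TH.Cert.K05
import Pool.Agent.Helper63.TH.Cert.K06
import Pool.Agent.Helper63.TH.Cert.K07
import Pool.Agent.Helper63.TH.Cert.K08
import Pool.Agent.Helper63.TH.Cert.K09
import Pool.Agent.Helper63.TH.Cert.K10
import Pool.Agent.Helper63.TH.Cert.K11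
import Pool.Agent.Helper63.TH.Cert.K12
import Pool.Agent.Helper63.TH.Cert.K13
import Pool.Agent.Helper63.TH.Cert.K14
import Pool.Agent.Helper63.TH.Cert.K15
import Pool.Agent.Helper63.TH.Cert.KN
import Pool.Agent.Helper63.TH.Cert.P3
import Pool.Agent.Helper63.TH.Cert.P4

/-!
# MP_705522_gt, thresholds: all cells together
-/

namespace Pool.Agent.Helper63.TH

open MeasureTheory Set Filter Topology
open Pool.Agent.Helper53.PT
open Pool.Agent.Helper63.P705 (NumOK baseOK base_facts tabP tabS tabT)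

attribute [local irreducible] tabP tabS tabT baseOK ok3 ok4 okT okm ok5 lt3 lt4 pD

section
variable (p : Pk)
include p

theorem s3_2056 : StrictAntiOn (D 3) (Icc (2048 / 8192) (2064 / 8192)) :=
  mk3 p (A := 2056) (B := N.b2056) (a1 := 2048) (a2 := 2064) rfl rfl rfl bo2056 rfl rfl (by norm_num) (by norm_num) (cond_and q2056).1 (by norm_num) (by norm_num)
theorem s3_2072 : StrictAntiOn (D 3) (Icc (2064 / 8192) (2080 / 8192)) :=
  mk3 p (A := 2072) (B := N.b2072) (a1 := 2064) (a2 := 2080) rfl rfl rfl bo2072 rfl rfl (by norm_num) (by norm_num) (cond_and q2072).1 (by norm_num) (by norm_num)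
theorem s3_2088 : StrictAntiOn (D 3) (Icc (2080 / 8192) (2096 / 8192)) :=
  mk3 p (A := 2088) (B := N.b2088) (a1 := 2080) (a2 := 2096) rfl rfl rfl bo2088 rfl rfl (by norm_num) (by norm_num) (cond_and q2088).1 (by norm_num) (by norm_num)
theorem s3_2108 : StrictAntiOn (D 3) (Icc (2096 / 8192) (2120 / 8192)) :=
  mk3 p (A := 2108) (B := N.b2108) (a1 := 2096) (a2 := 2120) rfl rfl rfl bo2108 rfl rfl (by norm_num) (by norm_num) (cond_and q2108).1 (by norm_num) (by norm_num)
theorem s3_2132 : StrictAntiOn (D 3) (Icc (2120 / 8192) (2144 / 8192)) :=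
  mk3 p (A := 2132) (B := N.b2132) (a1 := 2120) (a2 := 2144) rfl rfl rfl bo2132 rfl rfl (by norm_num) (by norm_num) (cond_and q2132).1 (by norm_num) (by norm_num)
theorem s3_2156 : StrictAntiOn (D 3) (Icc (2144 / 8192) (2168 / 8192)) :=
  mk3 p (A := 2156) (B := N.b2156) (a1 := 2144) (a2 := 2168) rfl rfl rfl bo2156 rfl rfl (by norm_num) (by norm_num) (cond_and q2156).1 (by norm_num) (by norm_num)
theorem s3_2180 : StrictAntiOn (D 3) (Icc (2168 / 8192) (2192 / 8192)) :=
  mk3 p (A := 2180) (B := N.b2180) (a1 := 2168) (a2 := 2192) rfl rfl rfl bo2180 rfl rfl (by norm_num) (by norm_num) (cond_and q2180).1 (by norm_num) (by norm_num)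
theorem s3_2204 : StrictAntiOn (D 3) (Icc (2192 / 8192) (2216 / 8192)) :=
  mk3 p (A := 2204) (B := N.b2204) (a1 := 2192) (a2 := 2216) rfl rfl rfl bo2204 rfl rfl (by norm_num) (by norm_num) (cond_and q2204).1 (by norm_num) (by norm_num)
theorem s3_2228 : StrictAntiOn (D 3) (Icc (2216 / 8192) (2240 / 8192)) :=
  mk3 p (A := 2228) (B := N.b2228) (a1 := 2216) (a2 := 2240) rfl rfl rfl bo2228 rfl rfl (by norm_num) (by norm_num) (cond_and q2228).1 (by norm_num) (by norm_num)
theorem s3_2252 : StrictAntiOn (D 3) (Icc (2240 / 8192) (2264 / 8192)) :=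
  mk3 p (A := 2252) (B := N.b2252) (a1 := 2240) (a2 := 2264) rfl rfl rfl bo2252 rfl rfl (by norm_num) (by norm_num) (cond_and q2252).1 (by norm_num) (by norm_num)
theorem s3_2280 : StrictAntiOn (D 3) (Icc (2264 / 8192) (2296 / 8192)) :=
  mk3 p (A := 2280) (B := N.b2280) (a1 := 2264) (a2 := 2296) rfl rfl rfl bo2280 rfl rfl (by norm_num) (by norm_num) (cond_and q2280).1 (by norm_num) (by norm_num)
theorem s3_2312 : StrictAntiOn (D 3) (Icc (2296 / 8192) (2328 / 8192)) :=
  mk3 p (A := 2312) (B := N.b2312) (a1 := 2296) (a2 := 2328) rfl rfl rfl bo2312 rfl rfl (by norm_num) (by norm_num) (cond_and q2312).1 (by norm_num) (by norm_num)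
theorem s3_2344 : StrictAntiOn (D 3) (Icc (2328 / 8192) (2360 / 8192)) :=
  mk3 p (A := 2344) (B := N.b2344) (a1 := 2328) (a2 := 2360) rfl rfl rfl bo2344 rfl rfl (by norm_num) (by norm_num) (cond_and q2344).1 (by norm_num) (by norm_num)
theorem s3_2376 : StrictAntiOn (D 3) (Icc (2360 / 8192) (2392 / 8192)) :=
  mk3 p (A := 2376) (B := N.b2376) (a1 := 2360) (a2 := 2392) rfl rfl rfl bo2376 rfl rfl (by norm_num) (by norm_num) (cond_and q2376).1 (by norm_num) (by norm_num)
theorem s3_2408 : StrictAntiOn (D 3) (Icc (2392 / 8192) (2424 / 8192)) :=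
  mk3 p (A := 2408) (B := N.b2408) (a1 := 2392) (a2 := 2424) rfl rfl rfl bo2408 rfl rfl (by norm_num) (by norm_num) (cond_and q2408).1 (by norm_num) (by norm_num)
theorem s3_2440 : StrictAntiOn (D 3) (Icc (2424 / 8192) (2456 / 8192)) :=
  mk3 p (A := 2440) (B := N.b2440) (a1 := 2424) (a2 := 2456) rfl rfl rfl bo2440 rfl rfl (by norm_num) (by norm_num) (cond_and q2440).1 (by norm_num) (by norm_num)
theorem s3_2468 : StrictAntiOn (D 3) (Icc (2456 / 8192) (2480 / 8192)) :=
  mk3 p (A := 2468) (B := N.b2468) (a1 := 2456) (a2 := 2480) rfl rfl rfl bo2468 rfl rfl (by norm_num) (by norm_num) (cond_and q2468).1 (by norm_num) (by norm_num)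
theorem s3_2488 : StrictAntiOn (D 3) (Icc (2480 / 8192) (2496 / 8192)) :=
  mk3 p (A := 2488) (B := N.b2488) (a1 := 2480) (a2 := 2496) rfl rfl rfl bo2488 rfl rfl (by norm_num) (by norm_num) (cond_and q2488).1 (by norm_num) (by norm_num)
theorem s3_2504 : StrictAntiOn (D 3) (Icc (2496 / 8192) (2512 / 8192)) :=
  mk3 p (A := 2504) (B := N.b2504) (a1 := 2496) (a2 := 2512) rfl rfl rfl bo2504 rfl rfl (by norm_num) (by norm_num) (cond_and q2504).1 (by norm_num) (by norm_num)
theorem s3_2508 : StrictAntiOn (D 3) (Icc (2500 / 8192) (2516 / 8192)) :=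
  mk3 p (A := 2508) (B := N.b2508) (a1 := 2500) (a2 := 2516) rfl rfl rfl bo2508 rfl rfl (by norm_num) (by norm_num) (cond_and q2508).1 (by norm_num) (by norm_num)
theorem s3_2522 : StrictAntiOn (D 3) (Icc (2516 / 8192) (2528 / 8192)) :=
  mk3 p (A := 2522) (B := N.b2522) (a1 := 2516) (a2 := 2528) rfl rfl rfl bo2522 rfl rfl (by norm_num) (by norm_num) (cond_and q2522).1 (by norm_num) (by norm_num)
theorem s3_2532 : StrictAntiOn (D 3) (Icc (2528 / 8192) (2536 / 8192)) :=
  mk3 p (A := 2532) (B := N.b2532) (a1 := 2528) (a2 := 2536) rfl rfl rfl bo2532 rfl rfl (by norm_num) (by norm_num) (cond_and q2532).1 (by norm_num) (by norm_num)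
theorem s3_2540 : StrictAntiOn (D 3) (Icc (2536 / 8192) (2544 / 8192)) :=
  mk3 p (A := 2540) (B := N.b2540) (a1 := 2536) (a2 := 2544) rfl rfl rfl bo2540 rfl rfl (by norm_num) (by norm_num) (cond_and q2540).1 (by norm_num) (by norm_num)
theorem s3_2547 : StrictAntiOn (D 3) (Icc (2544 / 8192) (2550 / 8192)) :=
  mk3 p (A := 2547) (B := N.b2547) (a1 := 2544) (a2 := 2550) rfl rfl rfl bo2547 rfl rfl (by norm_num) (by norm_num) (cond_and q2547).1 (by norm_num) (by norm_num)
theorem s3_2553 : StrictAntiOn (D 3) (Icc (2550 / 8192) (2556 / 8192)) :=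
  mk3 p (A := 2553) (B := N.b2553) (a1 := 2550) (a2 := 2556) rfl rfl rfl bo2553 rfl rfl (by norm_num) (by norm_num) (cond_and q2553).1 (by norm_num) (by norm_num)
theorem s3_2560 : StrictAntiOn (D 3) (Icc (2556 / 8192) (2564 / 8192)) :=
  mk3 p (A := 2560) (B := N.b2560) (a1 := 2556) (a2 := 2564) rfl rfl rfl bo2560 rfl rfl (by norm_num) (by norm_num) (cond_and q2560).1 (by norm_num) (by norm_num)
theorem s3_2570 : StrictAntiOn (D 3) (Icc (2564 / 8192) (2576 / 8192)) :=
  mk3 p (A := 2570) (B := N.b2570) (a1 := 2564) (a2 := 2576) rfl rfl rfl bo2570 rfl rfl (by norm_num) (by norm_num) (cond_and q2570).1 (by norm_num) (by norm_num)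
theorem s3_2584 : StrictAntiOn (D 3) (Icc (2576 / 8192) (2592 / 8192)) :=
  mk3 p (A := 2584) (B := N.b2584) (a1 := 2576) (a2 := 2592) rfl rfl rfl bo2584 rfl rfl (by norm_num) (by norm_num) (cond_and q2584).1 (by norm_num) (by norm_num)
theorem s3_2604 : StrictAntiOn (D 3) (Icc (2592 / 8192) (2616 / 8192)) :=
  mk3 p (A := 2604) (B := N.b2604) (a1 := 2592) (a2 := 2616) rfl rfl rfl bo2604 rfl rfl (by norm_num) (by norm_num) (cond_and q2604).1 (by norm_num) (by norm_num)
theorem s3_2632 : StrictAntiOn (D 3) (Icc (2616 / 8192) (2648 / 8192)) :=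
  mk3 p (A := 2632) (B := N.b2632) (a1 := 2616) (a2 := 2648) rfl rfl rfl bo2632 rfl rfl (by norm_num) (by norm_num) (cond_and q2632).1 (by norm_num) (by norm_num)
theorem s3_2664 : StrictAntiOn (D 3) (Icc (2648 / 8192) (2680 / 8192)) :=
  mk3 p (A := 2664) (B := N.b2664) (a1 := 2648) (a2 := 2680) rfl rfl rfl bo2664 rfl rfl (by norm_num) (by norm_num) (cond_and q2664).1 (by norm_num) (by norm_num)
theorem s3_2696 : StrictAntiOn (D 3) (Icc (2680 / 8192) (2712 / 8192)) :=
  mk3 p (A := 2696) (B := N.b2696) (a1 := 2680) (a2 := 2712) rfl rfl rfl bo2696 rfl rfl (by norm_num) (by norm_num) (cond_and q2696).1 (by norm_num) (by norm_num)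
theorem s3_2724 : StrictAntiOn (D 3) (Icc (2712 / 8192) (2736 / 8192)) :=
  mk3 p (A := 2724) (B := N.b2724) (a1 := 2712) (a2 := 2736) rfl rfl rfl bo2724 rfl rfl (by norm_num) (by norm_num) (cond_and q2724).1 (by norm_num) (by norm_num)
theorem s3_2748 : StrictAntiOn (D 3) (Icc (2736 / 8192) (2760 / 8192)) :=
  mk3 p (A := 2748) (B := N.b2748) (a1 := 2736) (a2 := 2760) rfl rfl rfl bo2748 rfl rfl (by norm_num) (by norm_num) (cond_and q2748).1 (by norm_num) (by norm_num)
theorem s3_2762 : StrictAntiOn (D 3) (Icc (2750 / 8192) (2774 / 8192)) :=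
  mk3 p (A := 2762) (B := N.b2762) (a1 := 2750) (a2 := 2774) rfl rfl rfl bo2762 rfl rfl (by norm_num) (by norm_num) (cond_and q2762).1 (by norm_num) (by norm_num)
theorem s3_2786 : StrictAntiOn (D 3) (Icc (2774 / 8192) (2798 / 8192)) :=
  mk3 p (A := 2786) (B := N.b2786) (a1 := 2774) (a2 := 2798) rfl rfl rfl bo2786 rfl rfl (by norm_num) (by norm_num) (cond_and q2786).1 (by norm_num) (by norm_num)
theorem s3_2810 : StrictAntiOn (D 3) (Icc (2798 / 8192) (2822 / 8192)) :=
  mk3 p (A := 2810) (B := N.b2810) (a1 := 2798) (a2 := 2822) rfl rfl rfl bo2810 rfl rfl (by norm_num) (by norm_num) (cond_and q2810).1 (by norm_num) (by norm_num)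
theorem s3_2834 : StrictAntiOn (D 3) (Icc (2822 / 8192) (2846 / 8192)) :=
  mk3 p (A := 2834) (B := N.b2834) (a1 := 2822) (a2 := 2846) rfl rfl rfl bo2834 rfl rfl (by norm_num) (by norm_num) (cond_and q2834).1 (by norm_num) (by norm_num)
theorem s3_2858 : StrictAntiOn (D 3) (Icc (2846 / 8192) (2870 / 8192)) :=
  mk3 p (A := 2858) (B := N.b2858) (a1 := 2846) (a2 := 2870) rfl rfl rfl bo2858 rfl rfl (by norm_num) (by norm_num) (cond_and q2858).1 (by norm_num) (by norm_num)
theorem s3_2882 : StrictAntiOn (D 3) (Icc (2870 / 8192) (2894 / 8192)) :=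
  mk3 p (A := 2882) (B := N.b2882) (a1 := 2870) (a2 := 2894) rfl rfl rfl bo2882 rfl rfl (by norm_num) (by norm_num) (cond_and q2882).1 (by norm_num) (by norm_num)
theorem s3_2902 : StrictAntiOn (D 3) (Icc (2894 / 8192) (2910 / 8192)) :=
  mk3 p (A := 2902) (B := N.b2902) (a1 := 2894) (a2 := 2910) rfl rfl rfl bo2902 rfl rfl (by norm_num) (by norm_num) (cond_and q2902).1 (by norm_num) (by norm_num)
theorem s3_2918 : StrictAntiOn (D 3) (Icc (2910 / 8192) (2926 / 8192)) :=
  mk3 p (A := 2918) (B := N.b2918) (a1 := 2910) (a2 := 2926) rfl rfl rfl bo2918 rfl rfl (by norm_num) (by norm_num) (cond_and q2918).1 (by norm_num) (by norm_num)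
theorem s3_2934 : StrictAntiOn (D 3) (Icc (2926 / 8192) (2942 / 8192)) :=
  mk3 p (A := 2934) (B := N.b2934) (a1 := 2926) (a2 := 2942) rfl rfl rfl bo2934 rfl rfl (by norm_num) (by norm_num) (cond_and q2934).1 (by norm_num) (by norm_num)
theorem s3_2950 : StrictAntiOn (D 3) (Icc (2942 / 8192) (2958 / 8192)) :=
  mk3 p (A := 2950) (B := N.b2950) (a1 := 2942) (a2 := 2958) rfl rfl rfl bo2950 rfl rfl (by norm_num) (by norm_num) (cond_and q2950).1 (by norm_num) (by norm_num)
theorem s3_2964 : StrictAntiOn (D 3) (Icc (2958 / 8192) (2970 / 8192)) :=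
  mk3 p (A := 2964) (B := N.b2964) (a1 := 2958) (a2 := 2970) rfl rfl rfl bo2964 rfl rfl (by norm_num) (by norm_num) (cond_and q2964).1 (by norm_num) (by norm_num)
theorem s3_2976 : StrictAntiOn (D 3) (Icc (2970 / 8192) (2982 / 8192)) :=
  mk3 p (A := 2976) (B := N.b2976) (a1 := 2970) (a2 := 2982) rfl rfl rfl bo2976 rfl rfl (by norm_num) (by norm_num) (cond_and q2976).1 (by norm_num) (by norm_num)
theorem s3_2988 : StrictAntiOn (D 3) (Icc (2982 / 8192) (2994 / 8192)) :=
  mk3 p (A := 2988) (B := N.b2988) (a1 := 2982) (a2 := 2994) rfl rfl rfl bo2988 rfl rfl (by norm_num) (by norm_num) (cond_and q2988).1 (by norm_num) (by norm_num)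
theorem s3_3000 : StrictAntiOn (D 3) (Icc (2994 / 8192) (3006 / 8192)) :=
  mk3 p (A := 3000) (B := N.b3000) (a1 := 2994) (a2 := 3006) rfl rfl rfl bo3000 rfl rfl (by norm_num) (by norm_num) (cond_and q3000).1 (by norm_num) (by norm_num)
theorem s3_3012 : StrictAntiOn (D 3) (Icc (3006 / 8192) (3018 / 8192)) :=
  mk3 p (A := 3012) (B := N.b3012) (a1 := 3006) (a2 := 3018) rfl rfl rfl bo3012 rfl rfl (by norm_num) (by norm_num) (cond_and q3012).1 (by norm_num) (by norm_num)
theorem s3_3022 : StrictAntiOn (D 3) (Icc (3018 / 8192) (3026 / 8192)) :=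
  mk3 p (A := 3022) (B := N.b3022) (a1 := 3018) (a2 := 3026) rfl rfl rfl bo3022 rfl rfl (by norm_num) (by norm_num) (cond_and q3022).1 (by norm_num) (by norm_num)
theorem s3_3030 : StrictAntiOn (D 3) (Icc (3026 / 8192) (3034 / 8192)) :=
  mk3 p (A := 3030) (B := N.b3030) (a1 := 3026) (a2 := 3034) rfl rfl rfl bo3030 rfl rfl (by norm_num) (by norm_num) (cond_and q3030).1 (by norm_num) (by norm_num)
theorem s3_3038 : StrictAntiOn (D 3) (Icc (3034 / 8192) (3042 / 8192)) :=
  mk3 p (A := 3038) (B := N.b3038) (a1 := 3034) (a2 := 3042) rfl rfl rfl bo3038 rfl rfl (by norm_num) (by norm_num) (cond_and q3038).1 (by norm_num) (by norm_num)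
theorem s3_3046 : StrictAntiOn (D 3) (Icc (3042 / 8192) (3050 / 8192)) :=
  mk3 p (A := 3046) (B := N.b3046) (a1 := 3042) (a2 := 3050) rfl rfl rfl bo3046 rfl rfl (by norm_num) (by norm_num) (cond_and q3046).1 (by norm_num) (by norm_num)
theorem s3_3054 : StrictAntiOn (D 3) (Icc (3050 / 8192) (3058 / 8192)) :=
  mk3 p (A := 3054) (B := N.b3054) (a1 := 3050) (a2 := 3058) rfl rfl rfl bo3054 rfl rfl (by norm_num) (by norm_num) (cond_and q3054).1 (by norm_num) (by norm_num)
theorem s3_3062 : StrictAntiOn (D 3) (Icc (3058 / 8192) (3066 / 8192)) :=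
  mk3 p (A := 3062) (B := N.b3062) (a1 := 3058) (a2 := 3066) rfl rfl rfl bo3062 rfl rfl (by norm_num) (by norm_num) (cond_and q3062).1 (by norm_num) (by norm_num)
theorem s3_3070 : StrictAntiOn (D 3) (Icc (3066 / 8192) (3074 / 8192)) :=
  mk3 p (A := 3070) (B := N.b3070) (a1 := 3066) (a2 := 3074) rfl rfl rfl bo3070 rfl rfl (by norm_num) (by norm_num) (cond_and q3070).1 (by norm_num) (by norm_num)
theorem s3_3080 : StrictAntiOn (D 3) (Icc (3074 / 8192) (3086 / 8192)) :=
  mk3 p (A := 3080) (B := N.b3080) (a1 := 3074) (a2 := 3086) rfl rfl rfl bo3080 rfl rfl (by norm_num) (by norm_num) (cond_and q3080).1 (by norm_num) (by norm_num)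
theorem s3_3092 : StrictAntiOn (D 3) (Icc (3086 / 8192) (3098 / 8192)) :=
  mk3 p (A := 3092) (B := N.b3092) (a1 := 3086) (a2 := 3098) rfl rfl rfl bo3092 rfl rfl (by norm_num) (by norm_num) (cond_and q3092).1 (by norm_num) (by norm_num)
theorem s3_3106 : StrictAntiOn (D 3) (Icc (3098 / 8192) (3114 / 8192)) :=
  mk3 p (A := 3106) (B := N.b3106) (a1 := 3098) (a2 := 3114) rfl rfl rfl bo3106 rfl rfl (by norm_num) (by norm_num) (cond_and q3106).1 (by norm_num) (by norm_num)
theorem s3_3108 : StrictAntiOn (D 3) (Icc (3100 / 8192) (3116 / 8192)) :=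
  mk3 p (A := 3108) (B := N.b3108) (a1 := 3100) (a2 := 3116) rfl rfl rfl bo3108 rfl rfl (by norm_num) (by norm_num) (cond_and q3108).1 (by norm_num) (by norm_num)
theorem s3_3124 : StrictAntiOn (D 3) (Icc (3116 / 8192) (3132 / 8192)) :=
  mk3 p (A := 3124) (B := N.b3124) (a1 := 3116) (a2 := 3132) rfl rfl rfl bo3124 rfl rfl (by norm_num) (by norm_num) (cond_and q3124).1 (by norm_num) (by norm_num)
theorem s3_3140 : StrictAntiOn (D 3) (Icc (3132 / 8192) (3148 / 8192)) :=
  mk3 p (A := 3140) (B := N.b3140) (a1 := 3132) (a2 := 3148) rfl rfl rfl bo3140 rfl rfl (by norm_num) (by norm_num) (cond_and q3140).1 (by norm_num) (by norm_num)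
theorem s3_3156 : StrictAntiOn (D 3) (Icc (3148 / 8192) (3164 / 8192)) :=
  mk3 p (A := 3156) (B := N.b3156) (a1 := 3148) (a2 := 3164) rfl rfl rfl bo3156 rfl rfl (by norm_num) (by norm_num) (cond_and q3156).1 (by norm_num) (by norm_num)
theorem s3_3172 : StrictAntiOn (D 3) (Icc (3164 / 8192) (3180 / 8192)) :=
  mk3 p (A := 3172) (B := N.b3172) (a1 := 3164) (a2 := 3180) rfl rfl rfl bo3172 rfl rfl (by norm_num) (by norm_num) (cond_and q3172).1 (by norm_num) (by norm_num)

theorem d3 : StrictAntiOn (D 3) (Icc (2048 / 8192) (3180 / 8192)) := by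
  have h0 := s3_2056 p
  have h1 := glueA h0 (s3_2072 p) (by norm_num) (by norm_num)
  have h2 := glueA h1 (s3_2088 p) (by norm_num) (by norm_num)
  have h3 := glueA h2 (s3_2108 p) (by norm_num) (by norm_num)
  have h4 := glueA h3 (s3_2132 p) (by norm_num) (by norm_num)
  have h5 := glueA h4 (s3_2156 p) (by norm_num) (by norm_num)
  have h6 := glueA h5 (s3_2180 p) (by norm_num) (by norm_num)
  have h7 := glueA h6 (s3_2204 p) (by norm_num) (by norm_num)
  have h8 := glueA h7 (s3_2228 p) (by norm_num) (by norm_num)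
  have h9 := glueA h8 (s3_2252 p) (by norm_num) (by norm_num)
  have h10 := glueA h9 (s3_2280 p) (by norm_num) (by norm_num)
  have h11 := glueA h10 (s3_2312 p) (by norm_num) (by norm_num)
  have h12 := glueA h11 (s3_2344 p) (by norm_num) (by norm_num)
  have h13 := glueA h12 (s3_2376 p) (by norm_num) (by norm_num)
  have h14 := glueA h13 (s3_2408 p) (by norm_num) (by norm_num)
  have h15 := glueA h14 (s3_2440 p) (by norm_num) (by norm_num)
  have h16 := glueA h15 (s3_2468 p) (by norm_num) (by norm_num)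
  have h17 := glueA h16 (s3_2488 p) (by norm_num) (by norm_num)
  have h18 := glueA h17 (s3_2504 p) (by norm_num) (by norm_num)
  have h19 := glueA h18 (s3_2508 p) (by norm_num) (by norm_num)
  have h20 := glueA h19 (s3_2522 p) (by norm_num) (by norm_num)
  have h21 := glueA h20 (s3_2532 p) (by norm_num) (by norm_num)
  have h22 := glueA h21 (s3_2540 p) (by norm_num) (by norm_num)
  have h23 := glueA h22 (s3_2547 p) (by norm_num) (by norm_num)
  have h24 := glueA h23 (s3_2553 p) (by norm_num) (by norm_num)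
  have h25 := glueA h24 (s3_2560 p) (by norm_num) (by norm_num)
  have h26 := glueA h25 (s3_2570 p) (by norm_num) (by norm_num)
  have h27 := glueA h26 (s3_2584 p) (by norm_num) (by norm_num)
  have h28 := glueA h27 (s3_2604 p) (by norm_num) (by norm_num)
  have h29 := glueA h28 (s3_2632 p) (by norm_num) (by norm_num)
  have h30 := glueA h29 (s3_2664 p) (by norm_num) (by norm_num)
  have h31 := glueA h30 (s3_2696 p) (by norm_num) (by norm_num)
  have h32 := glueA h31 (s3_2724 p) (by norm_num) (by norm_num)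
  have h33 := glueA h32 (s3_2748 p) (by norm_num) (by norm_num)
  have h34 := glueA h33 (s3_2762 p) (by norm_num) (by norm_num)
  have h35 := glueA h34 (s3_2786 p) (by norm_num) (by norm_num)
  have h36 := glueA h35 (s3_2810 p) (by norm_num) (by norm_num)
  have h37 := glueA h36 (s3_2834 p) (by norm_num) (by norm_num)
  have h38 := glueA h37 (s3_2858 p) (by norm_num) (by norm_num)
  have h39 := glueA h38 (s3_2882 p) (by norm_num) (by norm_num)
  have h40 := glueA h39 (s3_2902 p) (by norm_num) (by norm_num)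
  have h41 := glueA h40 (s3_2918 p) (by norm_num) (by norm_num)
  have h42 := glueA h41 (s3_2934 p) (by norm_num) (by norm_num)
  have h43 := glueA h42 (s3_2950 p) (by norm_num) (by norm_num)
  have h44 := glueA h43 (s3_2964 p) (by norm_num) (by norm_num)
  have h45 := glueA h44 (s3_2976 p) (by norm_num) (by norm_num)
  have h46 := glueA h45 (s3_2988 p) (by norm_num) (by norm_num)
  have h47 := glueA h46 (s3_3000 p) (by norm_num) (by norm_num)
  have h48 := glueA h47 (s3_3012 p) (by norm_num) (by norm_num)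
  have h49 := glueA h48 (s3_3022 p) (by norm_num) (by norm_num)
  have h50 := glueA h49 (s3_3030 p) (by norm_num) (by norm_num)
  have h51 := glueA h50 (s3_3038 p) (by norm_num) (by norm_num)
  have h52 := glueA h51 (s3_3046 p) (by norm_num) (by norm_num)
  have h53 := glueA h52 (s3_3054 p) (by norm_num) (by norm_num)
  have h54 := glueA h53 (s3_3062 p) (by norm_num) (by norm_num)
  have h55 := glueA h54 (s3_3070 p) (by norm_num) (by norm_num)
  have h56 := glueA h55 (s3_3080 p) (by norm_num) (by norm_num)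
  have h57 := glueA h56 (s3_3092 p) (by norm_num) (by norm_num)
  have h58 := glueA h57 (s3_3106 p) (by norm_num) (by norm_num)
  have h59 := glueA h58 (s3_3108 p) (by norm_num) (by norm_num)
  have h60 := glueA h59 (s3_3124 p) (by norm_num) (by norm_num)
  have h61 := glueA h60 (s3_3140 p) (by norm_num) (by norm_num)
  have h62 := glueA h61 (s3_3156 p) (by norm_num) (by norm_num)
  have h63 := glueA h62 (s3_3172 p) (by norm_num) (by norm_num)
  exact h63

theorem sm_3192 : AntitoneOn (fun θ => V θ 3) (Icc (3180 / 8192) (3204 / 8192)) :=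
  mkm p (A := 3192) (B := N.b3192) (a1 := 3180) (a2 := 3204) rfl rfl rfl bo3192 rfl rfl (by norm_num) (by norm_num) q3192 (by norm_num) (by norm_num)
theorem sm_3216 : AntitoneOn (fun θ => V θ 3) (Icc (3204 / 8192) (3228 / 8192)) :=
  mkm p (A := 3216) (B := N.b3216) (a1 := 3204) (a2 := 3228) rfl rfl rfl bo3216 rfl rfl (by norm_num) (by norm_num) q3216 (by norm_num) (by norm_num)
theorem sm_3244 : AntitoneOn (fun θ => V θ 3) (Icc (3228 / 8192) (3260 / 8192)) :=
  mkm p (A := 3244) (B := N.b3244) (a1 := 3228) (a2 := 3260) rfl rfl rfl bo3244 rfl rfl (by norm_num) (by norm_num) q3244 (by norm_num) (by norm_num)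
theorem sm_3276 : AntitoneOn (fun θ => V θ 3) (Icc (3260 / 8192) (3292 / 8192)) :=
  mkm p (A := 3276) (B := N.b3276) (a1 := 3260) (a2 := 3292) rfl rfl rfl bo3276 rfl rfl (by norm_num) (by norm_num) q3276 (by norm_num) (by norm_num)
theorem sm_3308 : AntitoneOn (fun θ => V θ 3) (Icc (3292 / 8192) (3324 / 8192)) :=
  mkm p (A := 3308) (B := N.b3308) (a1 := 3292) (a2 := 3324) rfl rfl rfl bo3308 rfl rfl (by norm_num) (by norm_num) q3308 (by norm_num) (by norm_num)
theorem sm_3340 : AntitoneOn (fun θ => V θ 3) (Icc (3324 / 8192) (3356 / 8192)) :=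
  mkm p (A := 3340) (B := N.b3340) (a1 := 3324) (a2 := 3356) rfl rfl rfl bo3340 rfl rfl (by norm_num) (by norm_num) q3340 (by norm_num) (by norm_num)
theorem sm_3380 : AntitoneOn (fun θ => V θ 3) (Icc (3356 / 8192) (3404 / 8192)) :=
  mkm p (A := 3380) (B := N.b3380) (a1 := 3356) (a2 := 3404) rfl rfl rfl bo3380 rfl rfl (by norm_num) (by norm_num) q3380 (by norm_num) (by norm_num)
theorem sm_3428 : AntitoneOn (fun θ => V θ 3) (Icc (3404 / 8192) (3452 / 8192)) :=
  mkm p (A := 3428) (B := N.b3428) (a1 := 3404) (a2 := 3452) rfl rfl rfl bo3428 rfl rfl (by norm_num) (by norm_num) q3428 (by norm_num) (by norm_num)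
theorem sm_3476 : AntitoneOn (fun θ => V θ 3) (Icc (3452 / 8192) (3500 / 8192)) :=
  mkm p (A := 3476) (B := N.b3476) (a1 := 3452) (a2 := 3500) rfl rfl rfl bo3476 rfl rfl (by norm_num) (by norm_num) q3476 (by norm_num) (by norm_num)
theorem sm_3524 : AntitoneOn (fun θ => V θ 3) (Icc (3500 / 8192) (3548 / 8192)) :=
  mkm p (A := 3524) (B := N.b3524) (a1 := 3500) (a2 := 3548) rfl rfl rfl bo3524 rfl rfl (by norm_num) (by norm_num) q3524 (by norm_num) (by norm_num)
theorem sm_3572 : AntitoneOn (fun θ => V θ 3) (Icc (3548 / 8192) (3596 / 8192)) :=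
  mkm p (A := 3572) (B := N.b3572) (a1 := 3548) (a2 := 3596) rfl rfl rfl bo3572 rfl rfl (by norm_num) (by norm_num) q3572 (by norm_num) (by norm_num)
theorem sm_3620 : AntitoneOn (fun θ => V θ 3) (Icc (3596 / 8192) (3644 / 8192)) :=
  mkm p (A := 3620) (B := N.b3620) (a1 := 3596) (a2 := 3644) rfl rfl rfl bo3620 rfl rfl (by norm_num) (by norm_num) q3620 (by norm_num) (by norm_num)
theorem sm_3668 : AntitoneOn (fun θ => V θ 3) (Icc (3644 / 8192) (3692 / 8192)) :=
  mkm p (A := 3668) (B := N.b3668) (a1 := 3644) (a2 := 3692) rfl rfl rfl bo3668 rfl rfl (by norm_num) (by norm_num) q3668 (by norm_num) (by norm_num)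
theorem sm_3716 : AntitoneOn (fun θ => V θ 3) (Icc (3692 / 8192) (3740 / 8192)) :=
  mkm p (A := 3716) (B := N.b3716) (a1 := 3692) (a2 := 3740) rfl rfl rfl bo3716 rfl rfl (by norm_num) (by norm_num) q3716 (by norm_num) (by norm_num)
theorem sm_3764 : AntitoneOn (fun θ => V θ 3) (Icc (3740 / 8192) (3788 / 8192)) :=
  mkm p (A := 3764) (B := N.b3764) (a1 := 3740) (a2 := 3788) rfl rfl rfl bo3764 rfl rfl (by norm_num) (by norm_num) q3764 (by norm_num) (by norm_num)
theorem sm_3812 : AntitoneOn (fun θ => V θ 3) (Icc (3788 / 8192) (3836 / 8192)) :=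
  mkm p (A := 3812) (B := N.b3812) (a1 := 3788) (a2 := 3836) rfl rfl rfl bo3812 rfl rfl (by norm_num) (by norm_num) q3812 (by norm_num) (by norm_num)
theorem sm_3852 : AntitoneOn (fun θ => V θ 3) (Icc (3836 / 8192) (3868 / 8192)) :=
  mkm p (A := 3852) (B := N.b3852) (a1 := 3836) (a2 := 3868) rfl rfl rfl bo3852 rfl rfl (by norm_num) (by norm_num) q3852 (by norm_num) (by norm_num)
theorem sm_3884 : AntitoneOn (fun θ => V θ 3) (Icc (3868 / 8192) (3900 / 8192)) :=
  mkm p (A := 3884) (B := N.b3884) (a1 := 3868) (a2 := 3900) rfl rfl rfl bo3884 rfl rfl (by norm_num) (by norm_num) q3884 (by norm_num) (by norm_num)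
theorem sm_3916 : AntitoneOn (fun θ => V θ 3) (Icc (3900 / 8192) (3932 / 8192)) :=
  mkm p (A := 3916) (B := N.b3916) (a1 := 3900) (a2 := 3932) rfl rfl rfl bo3916 rfl rfl (by norm_num) (by norm_num) q3916 (by norm_num) (by norm_num)

theorem w3c : AntitoneOn (fun θ => V θ 3) (Icc (3180 / 8192) (3932 / 8192)) := by
  have h0 := sm_3192 p
  have h1 := glueW h0 (sm_3216 p) (by norm_num) (by norm_num)
  have h2 := glueW h1 (sm_3244 p) (by norm_num) (by norm_num)
  have h3 := glueW h2 (sm_3276 p) (by norm_num) (by norm_num)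
  have h4 := glueW h3 (sm_3308 p) (by norm_num) (by norm_num)
  have h5 := glueW h4 (sm_3340 p) (by norm_num) (by norm_num)
  have h6 := glueW h5 (sm_3380 p) (by norm_num) (by norm_num)
  have h7 := glueW h6 (sm_3428 p) (by norm_num) (by norm_num)
  have h8 := glueW h7 (sm_3476 p) (by norm_num) (by norm_num)
  have h9 := glueW h8 (sm_3524 p) (by norm_num) (by norm_num)
  have h10 := glueW h9 (sm_3572 p) (by norm_num) (by norm_num)
  have h11 := glueW h10 (sm_3620 p) (by norm_num) (by norm_num)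
  have h12 := glueW h11 (sm_3668 p) (by norm_num) (by norm_num)
  have h13 := glueW h12 (sm_3716 p) (by norm_num) (by norm_num)
  have h14 := glueW h13 (sm_3764 p) (by norm_num) (by norm_num)
  have h15 := glueW h14 (sm_3812 p) (by norm_num) (by norm_num)
  have h16 := glueW h15 (sm_3852 p) (by norm_num) (by norm_num)
  have h17 := glueW h16 (sm_3884 p) (by norm_num) (by norm_num)
  have h18 := glueW h17 (sm_3916 p) (by norm_num) (by norm_num)
  exact h18

theorem s5_3944 : StrictMonoOn (D 3) (Icc (3932 / 8192) (3956 / 8192)) :=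
  mk5 p (A := 3944) (B := N.b3944) (a1 := 3932) (a2 := 3956) rfl rfl rfl bo3944 rfl rfl (by norm_num) (by norm_num) q3944 (by norm_num) (by norm_num)
theorem s5_3964 : StrictMonoOn (D 3) (Icc (3956 / 8192) (3972 / 8192)) :=
  mk5 p (A := 3964) (B := N.b3964) (a1 := 3956) (a2 := 3972) rfl rfl rfl bo3964 rfl rfl (by norm_num) (by norm_num) q3964 (by norm_num) (by norm_num)
theorem s5_3980 : StrictMonoOn (D 3) (Icc (3972 / 8192) (3988 / 8192)) :=
  mk5 p (A := 3980) (B := N.b3980) (a1 := 3972) (a2 := 3988) rfl rfl rfl bo3980 rfl rfl (by norm_num) (by norm_num) q3980 (by norm_num) (by norm_num)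
theorem s5_3996 : StrictMonoOn (D 3) (Icc (3988 / 8192) (4004 / 8192)) :=
  mk5 p (A := 3996) (B := N.b3996) (a1 := 3988) (a2 := 4004) rfl rfl rfl bo3996 rfl rfl (by norm_num) (by norm_num) q3996 (by norm_num) (by norm_num)
theorem s5_4010 : StrictMonoOn (D 3) (Icc (4004 / 8192) (4016 / 8192)) :=
  mk5 p (A := 4010) (B := N.b4010) (a1 := 4004) (a2 := 4016) rfl rfl rfl bo4010 rfl rfl (by norm_num) (by norm_num) q4010 (by norm_num) (by norm_num)
theorem s5_4022 : StrictMonoOn (D 3) (Icc (4016 / 8192) (4028 / 8192)) :=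
  mk5 p (A := 4022) (B := b4022) (a1 := 4016) (a2 := 4028) rfl rfl rfl bo4022 rfl rfl (by norm_num) (by norm_num) q4022 (by norm_num) (by norm_num)
theorem s5_4034 : StrictMonoOn (D 3) (Icc (4028 / 8192) (4040 / 8192)) :=
  mk5 p (A := 4034) (B := b4034) (a1 := 4028) (a2 := 4040) rfl rfl rfl bo4034 rfl rfl (by norm_num) (by norm_num) q4034 (by norm_num) (by norm_num)
theorem s5_4050 : StrictMonoOn (D 3) (Icc (4040 / 8192) (4060 / 8192)) :=
  mk5 p (A := 4050) (B := b4050) (a1 := 4040) (a2 := 4060) rfl rfl rfl bo4050 rfl rfl (by norm_num) (by norm_num) q4050 (by norm_num) (by norm_num)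

theorem i3 : StrictMonoOn (D 3) (Icc (3932 / 8192) (4060 / 8192)) := by
  have h0 := s5_3944 p
  have h1 := glueM h0 (s5_3964 p) (by norm_num) (by norm_num)
  have h2 := glueM h1 (s5_3980 p) (by norm_num) (by norm_num)
  have h3 := glueM h2 (s5_3996 p) (by norm_num) (by norm_num)
  have h4 := glueM h3 (s5_4010 p) (by norm_num) (by norm_num)
  have h5 := glueM h4 (s5_4022 p) (by norm_num) (by norm_num)
  have h6 := glueM h5 (s5_4034 p) (by norm_num) (by norm_num)
  have h7 := glueM h6 (s5_4050 p) (by norm_num) (by norm_num)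
  exact h7

theorem sT_2810 : AntitoneOn (fun θ => V θ 4 - (107312334870 / 2 ^ 40) * θ) (Icc (2798 / 8192) (2822 / 8192)) :=
  mkT p (A := 2810) (B := N.b2810) (a1 := 2798) (a2 := 2822) rfl rfl rfl bo2810 rfl rfl (by norm_num) (by norm_num) (cond_and q2810).2 (by norm_num) (by norm_num)
theorem sT_2834 : AntitoneOn (fun θ => V θ 4 - (107312334870 / 2 ^ 40) * θ) (Icc (2822 / 8192) (2846 / 8192)) :=
  mkT p (A := 2834) (B := N.b2834) (a1 := 2822) (a2 := 2846) rfl rfl rfl bo2834 rfl rfl (by norm_num) (by norm_num) (cond_and q2834).2 (by norm_num) (by norm_num)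
theorem sT_2858 : AntitoneOn (fun θ => V θ 4 - (107312334870 / 2 ^ 40) * θ) (Icc (2846 / 8192) (2870 / 8192)) :=
  mkT p (A := 2858) (B := N.b2858) (a1 := 2846) (a2 := 2870) rfl rfl rfl bo2858 rfl rfl (by norm_num) (by norm_num) (cond_and q2858).2 (by norm_num) (by norm_num)
theorem sT_2882 : AntitoneOn (fun θ => V θ 4 - (107312334870 / 2 ^ 40) * θ) (Icc (2870 / 8192) (2894 / 8192)) :=
  mkT p (A := 2882) (B := N.b2882) (a1 := 2870) (a2 := 2894) rfl rfl rfl bo2882 rfl rfl (by norm_num) (by norm_num) (cond_and q2882).2 (by norm_num) (by norm_num)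
theorem sT_2902 : AntitoneOn (fun θ => V θ 4 - (107312334870 / 2 ^ 40) * θ) (Icc (2894 / 8192) (2910 / 8192)) :=
  mkT p (A := 2902) (B := N.b2902) (a1 := 2894) (a2 := 2910) rfl rfl rfl bo2902 rfl rfl (by norm_num) (by norm_num) (cond_and q2902).2 (by norm_num) (by norm_num)
theorem sT_2918 : AntitoneOn (fun θ => V θ 4 - (107312334870 / 2 ^ 40) * θ) (Icc (2910 / 8192) (2926 / 8192)) :=
  mkT p (A := 2918) (B := N.b2918) (a1 := 2910) (a2 := 2926) rfl rfl rfl bo2918 rfl rfl (by norm_num) (by norm_num) (cond_and q2918).2 (by norm_num) (by norm_num)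
theorem sT_2934 : AntitoneOn (fun θ => V θ 4 - (107312334870 / 2 ^ 40) * θ) (Icc (2926 / 8192) (2942 / 8192)) :=
  mkT p (A := 2934) (B := N.b2934) (a1 := 2926) (a2 := 2942) rfl rfl rfl bo2934 rfl rfl (by norm_num) (by norm_num) (cond_and q2934).2 (by norm_num) (by norm_num)
theorem sT_2950 : AntitoneOn (fun θ => V θ 4 - (107312334870 / 2 ^ 40) * θ) (Icc (2942 / 8192) (2958 / 8192)) :=
  mkT p (A := 2950) (B := N.b2950) (a1 := 2942) (a2 := 2958) rfl rfl rfl bo2950 rfl rfl (by norm_num) (by norm_num) (cond_and q2950).2 (by norm_num) (by norm_num)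
theorem sT_2964 : AntitoneOn (fun θ => V θ 4 - (107312334870 / 2 ^ 40) * θ) (Icc (2958 / 8192) (2970 / 8192)) :=
  mkT p (A := 2964) (B := N.b2964) (a1 := 2958) (a2 := 2970) rfl rfl rfl bo2964 rfl rfl (by norm_num) (by norm_num) (cond_and q2964).2 (by norm_num) (by norm_num)
theorem sT_2976 : AntitoneOn (fun θ => V θ 4 - (107312334870 / 2 ^ 40) * θ) (Icc (2970 / 8192) (2982 / 8192)) :=
  mkT p (A := 2976) (B := N.b2976) (a1 := 2970) (a2 := 2982) rfl rfl rfl bo2976 rfl rfl (by norm_num) (by norm_num) (cond_and q2976).2 (by norm_num) (by norm_num)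
theorem sT_2988 : AntitoneOn (fun θ => V θ 4 - (107312334870 / 2 ^ 40) * θ) (Icc (2982 / 8192) (2994 / 8192)) :=
  mkT p (A := 2988) (B := N.b2988) (a1 := 2982) (a2 := 2994) rfl rfl rfl bo2988 rfl rfl (by norm_num) (by norm_num) (cond_and q2988).2 (by norm_num) (by norm_num)
theorem sT_3000 : AntitoneOn (fun θ => V θ 4 - (107312334870 / 2 ^ 40) * θ) (Icc (2994 / 8192) (3006 / 8192)) :=
  mkT p (A := 3000) (B := N.b3000) (a1 := 2994) (a2 := 3006) rfl rfl rfl bo3000 rfl rfl (by norm_num) (by norm_num) (cond_and q3000).2 (by norm_num) (by norm_num)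
theorem sT_3012 : AntitoneOn (fun θ => V θ 4 - (107312334870 / 2 ^ 40) * θ) (Icc (3006 / 8192) (3018 / 8192)) :=
  mkT p (A := 3012) (B := N.b3012) (a1 := 3006) (a2 := 3018) rfl rfl rfl bo3012 rfl rfl (by norm_num) (by norm_num) (cond_and q3012).2 (by norm_num) (by norm_num)
theorem sT_3022 : AntitoneOn (fun θ => V θ 4 - (107312334870 / 2 ^ 40) * θ) (Icc (3018 / 8192) (3026 / 8192)) :=
  mkT p (A := 3022) (B := N.b3022) (a1 := 3018) (a2 := 3026) rfl rfl rfl bo3022 rfl rfl (by norm_num) (by norm_num) (cond_and q3022).2 (by norm_num) (by norm_num)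
theorem sT_3030 : AntitoneOn (fun θ => V θ 4 - (107312334870 / 2 ^ 40) * θ) (Icc (3026 / 8192) (3034 / 8192)) :=
  mkT p (A := 3030) (B := N.b3030) (a1 := 3026) (a2 := 3034) rfl rfl rfl bo3030 rfl rfl (by norm_num) (by norm_num) (cond_and q3030).2 (by norm_num) (by norm_num)
theorem sT_3038 : AntitoneOn (fun θ => V θ 4 - (107312334870 / 2 ^ 40) * θ) (Icc (3034 / 8192) (3042 / 8192)) :=
  mkT p (A := 3038) (B := N.b3038) (a1 := 3034) (a2 := 3042) rfl rfl rfl bo3038 rfl rfl (by norm_num) (by norm_num) (cond_and q3038).2 (by norm_num) (by norm_num)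
theorem sT_3046 : AntitoneOn (fun θ => V θ 4 - (107312334870 / 2 ^ 40) * θ) (Icc (3042 / 8192) (3050 / 8192)) :=
  mkT p (A := 3046) (B := N.b3046) (a1 := 3042) (a2 := 3050) rfl rfl rfl bo3046 rfl rfl (by norm_num) (by norm_num) (cond_and q3046).2 (by norm_num) (by norm_num)
theorem sT_3054 : AntitoneOn (fun θ => V θ 4 - (107312334870 / 2 ^ 40) * θ) (Icc (3050 / 8192) (3058 / 8192)) :=
  mkT p (A := 3054) (B := N.b3054) (a1 := 3050) (a2 := 3058) rfl rfl rfl bo3054 rfl rfl (by norm_num) (by norm_num) (cond_and q3054).2 (by norm_num) (by norm_num)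
theorem sT_3062 : AntitoneOn (fun θ => V θ 4 - (107312334870 / 2 ^ 40) * θ) (Icc (3058 / 8192) (3066 / 8192)) :=
  mkT p (A := 3062) (B := N.b3062) (a1 := 3058) (a2 := 3066) rfl rfl rfl bo3062 rfl rfl (by norm_num) (by norm_num) (cond_and q3062).2 (by norm_num) (by norm_num)
theorem sT_3070 : AntitoneOn (fun θ => V θ 4 - (107312334870 / 2 ^ 40) * θ) (Icc (3066 / 8192) (3074 / 8192)) :=
  mkT p (A := 3070) (B := N.b3070) (a1 := 3066) (a2 := 3074) rfl rfl rfl bo3070 rfl rfl (by norm_num) (by norm_num) (cond_and q3070).2 (by norm_num) (by norm_num)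
theorem sT_3080 : AntitoneOn (fun θ => V θ 4 - (107312334870 / 2 ^ 40) * θ) (Icc (3074 / 8192) (3086 / 8192)) :=
  mkT p (A := 3080) (B := N.b3080) (a1 := 3074) (a2 := 3086) rfl rfl rfl bo3080 rfl rfl (by norm_num) (by norm_num) (cond_and q3080).2 (by norm_num) (by norm_num)
theorem sT_3092 : AntitoneOn (fun θ => V θ 4 - (107312334870 / 2 ^ 40) * θ) (Icc (3086 / 8192) (3098 / 8192)) :=
  mkT p (A := 3092) (B := N.b3092) (a1 := 3086) (a2 := 3098) rfl rfl rfl bo3092 rfl rfl (by norm_num) (by norm_num) (cond_and q3092).2 (by norm_num) (by norm_num)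
theorem sT_3106 : AntitoneOn (fun θ => V θ 4 - (107312334870 / 2 ^ 40) * θ) (Icc (3098 / 8192) (3114 / 8192)) :=
  mkT p (A := 3106) (B := N.b3106) (a1 := 3098) (a2 := 3114) rfl rfl rfl bo3106 rfl rfl (by norm_num) (by norm_num) (cond_and q3106).2 (by norm_num) (by norm_num)
theorem sT_3108 : AntitoneOn (fun θ => V θ 4 - (107312334870 / 2 ^ 40) * θ) (Icc (3100 / 8192) (3116 / 8192)) :=
  mkT p (A := 3108) (B := N.b3108) (a1 := 3100) (a2 := 3116) rfl rfl rfl bo3108 rfl rfl (by norm_num) (by norm_num) (cond_and q3108).2 (by norm_num) (by norm_num)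
theorem sT_3124 : AntitoneOn (fun θ => V θ 4 - (107312334870 / 2 ^ 40) * θ) (Icc (3116 / 8192) (3132 / 8192)) :=
  mkT p (A := 3124) (B := N.b3124) (a1 := 3116) (a2 := 3132) rfl rfl rfl bo3124 rfl rfl (by norm_num) (by norm_num) (cond_and q3124).2 (by norm_num) (by norm_num)
theorem sT_3140 : AntitoneOn (fun θ => V θ 4 - (107312334870 / 2 ^ 40) * θ) (Icc (3132 / 8192) (3148 / 8192)) :=
  mkT p (A := 3140) (B := N.b3140) (a1 := 3132) (a2 := 3148) rfl rfl rfl bo3140 rfl rfl (by norm_num) (by norm_num) (cond_and q3140).2 (by norm_num) (by norm_num)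
theorem sT_3156 : AntitoneOn (fun θ => V θ 4 - (107312334870 / 2 ^ 40) * θ) (Icc (3148 / 8192) (3164 / 8192)) :=
  mkT p (A := 3156) (B := N.b3156) (a1 := 3148) (a2 := 3164) rfl rfl rfl bo3156 rfl rfl (by norm_num) (by norm_num) (cond_and q3156).2 (by norm_num) (by norm_num)
theorem sT_3172 : AntitoneOn (fun θ => V θ 4 - (107312334870 / 2 ^ 40) * θ) (Icc (3164 / 8192) (3180 / 8192)) :=
  mkT p (A := 3172) (B := N.b3172) (a1 := 3164) (a2 := 3180) rfl rfl rfl bo3172 rfl rfl (by norm_num) (by norm_num) (cond_and q3172).2 (by norm_num) (by norm_num)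

theorem t4 : AntitoneOn (fun θ => V θ 4 - (107312334870 / 2 ^ 40) * θ) (Icc (2798 / 8192) (3180 / 8192)) := by
  have h0 := sT_2810 p
  have h1 := glueW h0 (sT_2834 p) (by norm_num) (by norm_num)
  have h2 := glueW h1 (sT_2858 p) (by norm_num) (by norm_num)
  have h3 := glueW h2 (sT_2882 p) (by norm_num) (by norm_num)
  have h4 := glueW h3 (sT_2902 p) (by norm_num) (by norm_num)
  have h5 := glueW h4 (sT_2918 p) (by norm_num) (by norm_num)
  have h6 := glueW h5 (sT_2934 p) (by norm_num) (by norm_num)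
  have h7 := glueW h6 (sT_2950 p) (by norm_num) (by norm_num)
  have h8 := glueW h7 (sT_2964 p) (by norm_num) (by norm_num)
  have h9 := glueW h8 (sT_2976 p) (by norm_num) (by norm_num)
  have h10 := glueW h9 (sT_2988 p) (by norm_num) (by norm_num)
  have h11 := glueW h10 (sT_3000 p) (by norm_num) (by norm_num)
  have h12 := glueW h11 (sT_3012 p) (by norm_num) (by norm_num)
  have h13 := glueW h12 (sT_3022 p) (by norm_num) (by norm_num)
  have h14 := glueW h13 (sT_3030 p) (by norm_num) (by norm_num)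
  have h15 := glueW h14 (sT_3038 p) (by norm_num) (by norm_num)
  have h16 := glueW h15 (sT_3046 p) (by norm_num) (by norm_num)
  have h17 := glueW h16 (sT_3054 p) (by norm_num) (by norm_num)
  have h18 := glueW h17 (sT_3062 p) (by norm_num) (by norm_num)
  have h19 := glueW h18 (sT_3070 p) (by norm_num) (by norm_num)
  have h20 := glueW h19 (sT_3080 p) (by norm_num) (by norm_num)
  have h21 := glueW h20 (sT_3092 p) (by norm_num) (by norm_num)
  have h22 := glueW h21 (sT_3106 p) (by norm_num) (by norm_num)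
  have h23 := glueW h22 (sT_3108 p) (by norm_num) (by norm_num)
  have h24 := glueW h23 (sT_3124 p) (by norm_num) (by norm_num)
  have h25 := glueW h24 (sT_3140 p) (by norm_num) (by norm_num)
  have h26 := glueW h25 (sT_3156 p) (by norm_num) (by norm_num)
  have h27 := glueW h26 (sT_3172 p) (by norm_num) (by norm_num)
  exact h27

theorem s4_2056 {n : ℕ} (hn : 4 ≤ n) : StrictAntiOn (D n) (Icc (2048 / 8192) (2064 / 8192)) :=
  mk4 p (A := 2056) (B := N.b2056) (a1 := 2048) (a2 := 2064) rfl rfl rfl bo2056 rfl rfl (by norm_num) (by norm_num) (cond_and q2056).2 (by norm_num) (by norm_num) hn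
theorem s4_2072 {n : ℕ} (hn : 4 ≤ n) : StrictAntiOn (D n) (Icc (2064 / 8192) (2080 / 8192)) :=
  mk4 p (A := 2072) (B := N.b2072) (a1 := 2064) (a2 := 2080) rfl rfl rfl bo2072 rfl rfl (by norm_num) (by norm_num) (cond_and q2072).2 (by norm_num) (by norm_num) hn
theorem s4_2088 {n : ℕ} (hn : 4 ≤ n) : StrictAntiOn (D n) (Icc (2080 / 8192) (2096 / 8192)) :=
  mk4 p (A := 2088) (B := N.b2088) (a1 := 2080) (a2 := 2096) rfl rfl rfl bo2088 rfl rfl (by norm_num) (by norm_num) (cond_and q2088).2 (by norm_num) (by norm_num) hn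
theorem s4_2108 {n : ℕ} (hn : 4 ≤ n) : StrictAntiOn (D n) (Icc (2096 / 8192) (2120 / 8192)) :=
  mk4 p (A := 2108) (B := N.b2108) (a1 := 2096) (a2 := 2120) rfl rfl rfl bo2108 rfl rfl (by norm_num) (by norm_num) (cond_and q2108).2 (by norm_num) (by norm_num) hn
theorem s4_2132 {n : ℕ} (hn : 4 ≤ n) : StrictAntiOn (D n) (Icc (2120 / 8192) (2144 / 8192)) :=
  mk4 p (A := 2132) (B := N.b2132) (a1 := 2120) (a2 := 2144) rfl rfl rfl bo2132 rfl rfl (by norm_num) (by norm_num) (cond_and q2132).2 (by norm_num) (by norm_num) hn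
theorem s4_2156 {n : ℕ} (hn : 4 ≤ n) : StrictAntiOn (D n) (Icc (2144 / 8192) (2168 / 8192)) :=
  mk4 p (A := 2156) (B := N.b2156) (a1 := 2144) (a2 := 2168) rfl rfl rfl bo2156 rfl rfl (by norm_num) (by norm_num) (cond_and q2156).2 (by norm_num) (by norm_num) hn
theorem s4_2180 {n : ℕ} (hn : 4 ≤ n) : StrictAntiOn (D n) (Icc (2168 / 8192) (2192 / 8192)) :=
  mk4 p (A := 2180) (B := N.b2180) (a1 := 2168) (a2 := 2192) rfl rfl rfl bo2180 rfl rfl (by norm_num) (by norm_num) (cond_and q2180).2 (by norm_num) (by norm_num) hn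
theorem s4_2204 {n : ℕ} (hn : 4 ≤ n) : StrictAntiOn (D n) (Icc (2192 / 8192) (2216 / 8192)) :=
  mk4 p (A := 2204) (B := N.b2204) (a1 := 2192) (a2 := 2216) rfl rfl rfl bo2204 rfl rfl (by norm_num) (by norm_num) (cond_and q2204).2 (by norm_num) (by norm_num) hn
theorem s4_2228 {n : ℕ} (hn : 4 ≤ n) : StrictAntiOn (D n) (Icc (2216 / 8192) (2240 / 8192)) :=
  mk4 p (A := 2228) (B := N.b2228) (a1 := 2216) (a2 := 2240) rfl rfl rfl bo2228 rfl rfl (by norm_num) (by norm_num) (cond_and q2228).2 (by norm_num) (by norm_num) hn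
theorem s4_2252 {n : ℕ} (hn : 4 ≤ n) : StrictAntiOn (D n) (Icc (2240 / 8192) (2264 / 8192)) :=
  mk4 p (A := 2252) (B := N.b2252) (a1 := 2240) (a2 := 2264) rfl rfl rfl bo2252 rfl rfl (by norm_num) (by norm_num) (cond_and q2252).2 (by norm_num) (by norm_num) hn
theorem s4_2280 {n : ℕ} (hn : 4 ≤ n) : StrictAntiOn (D n) (Icc (2264 / 8192) (2296 / 8192)) :=
  mk4 p (A := 2280) (B := N.b2280) (a1 := 2264) (a2 := 2296) rfl rfl rfl bo2280 rfl rfl (by norm_num) (by norm_num) (cond_and q2280).2 (by norm_num) (by norm_num) hn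
theorem s4_2312 {n : ℕ} (hn : 4 ≤ n) : StrictAntiOn (D n) (Icc (2296 / 8192) (2328 / 8192)) :=
  mk4 p (A := 2312) (B := N.b2312) (a1 := 2296) (a2 := 2328) rfl rfl rfl bo2312 rfl rfl (by norm_num) (by norm_num) (cond_and q2312).2 (by norm_num) (by norm_num) hn
theorem s4_2344 {n : ℕ} (hn : 4 ≤ n) : StrictAntiOn (D n) (Icc (2328 / 8192) (2360 / 8192)) :=
  mk4 p (A := 2344) (B := N.b2344) (a1 := 2328) (a2 := 2360) rfl rfl rfl bo2344 rfl rfl (by norm_num) (by norm_num) (cond_and q2344).2 (by norm_num) (by norm_num) hn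
theorem s4_2376 {n : ℕ} (hn : 4 ≤ n) : StrictAntiOn (D n) (Icc (2360 / 8192) (2392 / 8192)) :=
  mk4 p (A := 2376) (B := N.b2376) (a1 := 2360) (a2 := 2392) rfl rfl rfl bo2376 rfl rfl (by norm_num) (by norm_num) (cond_and q2376).2 (by norm_num) (by norm_num) hn
theorem s4_2408 {n : ℕ} (hn : 4 ≤ n) : StrictAntiOn (D n) (Icc (2392 / 8192) (2424 / 8192)) :=
  mk4 p (A := 2408) (B := N.b2408) (a1 := 2392) (a2 := 2424) rfl rfl rfl bo2408 rfl rfl (by norm_num) (by norm_num) (cond_and q2408).2 (by norm_num) (by norm_num) hn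
theorem s4_2440 {n : ℕ} (hn : 4 ≤ n) : StrictAntiOn (D n) (Icc (2424 / 8192) (2456 / 8192)) :=
  mk4 p (A := 2440) (B := N.b2440) (a1 := 2424) (a2 := 2456) rfl rfl rfl bo2440 rfl rfl (by norm_num) (by norm_num) (cond_and q2440).2 (by norm_num) (by norm_num) hn
theorem s4_2468 {n : ℕ} (hn : 4 ≤ n) : StrictAntiOn (D n) (Icc (2456 / 8192) (2480 / 8192)) :=
  mk4 p (A := 2468) (B := N.b2468) (a1 := 2456) (a2 := 2480) rfl rfl rfl bo2468 rfl rfl (by norm_num) (by norm_num) (cond_and q2468).2 (by norm_num) (by norm_num) hn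
theorem s4_2488 {n : ℕ} (hn : 4 ≤ n) : StrictAntiOn (D n) (Icc (2480 / 8192) (2496 / 8192)) :=
  mk4 p (A := 2488) (B := N.b2488) (a1 := 2480) (a2 := 2496) rfl rfl rfl bo2488 rfl rfl (by norm_num) (by norm_num) (cond_and q2488).2 (by norm_num) (by norm_num) hn
theorem s4_2504 {n : ℕ} (hn : 4 ≤ n) : StrictAntiOn (D n) (Icc (2496 / 8192) (2512 / 8192)) :=
  mk4 p (A := 2504) (B := N.b2504) (a1 := 2496) (a2 := 2512) rfl rfl rfl bo2504 rfl rfl (by norm_num) (by norm_num) (cond_and q2504).2 (by norm_num) (by norm_num) hn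
theorem s4_2508 {n : ℕ} (hn : 4 ≤ n) : StrictAntiOn (D n) (Icc (2500 / 8192) (2516 / 8192)) :=
  mk4 p (A := 2508) (B := N.b2508) (a1 := 2500) (a2 := 2516) rfl rfl rfl bo2508 rfl rfl (by norm_num) (by norm_num) (cond_and q2508).2 (by norm_num) (by norm_num) hn
theorem s4_2522 {n : ℕ} (hn : 4 ≤ n) : StrictAntiOn (D n) (Icc (2516 / 8192) (2528 / 8192)) :=
  mk4 p (A := 2522) (B := N.b2522) (a1 := 2516) (a2 := 2528) rfl rfl rfl bo2522 rfl rfl (by norm_num) (by norm_num) (cond_and q2522).2 (by norm_num) (by norm_num) hn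
theorem s4_2532 {n : ℕ} (hn : 4 ≤ n) : StrictAntiOn (D n) (Icc (2528 / 8192) (2536 / 8192)) :=
  mk4 p (A := 2532) (B := N.b2532) (a1 := 2528) (a2 := 2536) rfl rfl rfl bo2532 rfl rfl (by norm_num) (by norm_num) (cond_and q2532).2 (by norm_num) (by norm_num) hn
theorem s4_2540 {n : ℕ} (hn : 4 ≤ n) : StrictAntiOn (D n) (Icc (2536 / 8192) (2544 / 8192)) :=
  mk4 p (A := 2540) (B := N.b2540) (a1 := 2536) (a2 := 2544) rfl rfl rfl bo2540 rfl rfl (by norm_num) (by norm_num) (cond_and q2540).2 (by norm_num) (by norm_num) hn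
theorem s4_2547 {n : ℕ} (hn : 4 ≤ n) : StrictAntiOn (D n) (Icc (2544 / 8192) (2550 / 8192)) :=
  mk4 p (A := 2547) (B := N.b2547) (a1 := 2544) (a2 := 2550) rfl rfl rfl bo2547 rfl rfl (by norm_num) (by norm_num) (cond_and q2547).2 (by norm_num) (by norm_num) hn
theorem s4_2553 {n : ℕ} (hn : 4 ≤ n) : StrictAntiOn (D n) (Icc (2550 / 8192) (2556 / 8192)) :=
  mk4 p (A := 2553) (B := N.b2553) (a1 := 2550) (a2 := 2556) rfl rfl rfl bo2553 rfl rfl (by norm_num) (by norm_num) (cond_and q2553).2 (by norm_num) (by norm_num) hn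
theorem s4_2560 {n : ℕ} (hn : 4 ≤ n) : StrictAntiOn (D n) (Icc (2556 / 8192) (2564 / 8192)) :=
  mk4 p (A := 2560) (B := N.b2560) (a1 := 2556) (a2 := 2564) rfl rfl rfl bo2560 rfl rfl (by norm_num) (by norm_num) (cond_and q2560).2 (by norm_num) (by norm_num) hn
theorem s4_2570 {n : ℕ} (hn : 4 ≤ n) : StrictAntiOn (D n) (Icc (2564 / 8192) (2576 / 8192)) :=
  mk4 p (A := 2570) (B := N.b2570) (a1 := 2564) (a2 := 2576) rfl rfl rfl bo2570 rfl rfl (by norm_num) (by norm_num) (cond_and q2570).2 (by norm_num) (by norm_num) hn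
theorem s4_2584 {n : ℕ} (hn : 4 ≤ n) : StrictAntiOn (D n) (Icc (2576 / 8192) (2592 / 8192)) :=
  mk4 p (A := 2584) (B := N.b2584) (a1 := 2576) (a2 := 2592) rfl rfl rfl bo2584 rfl rfl (by norm_num) (by norm_num) (cond_and q2584).2 (by norm_num) (by norm_num) hn
theorem s4_2604 {n : ℕ} (hn : 4 ≤ n) : StrictAntiOn (D n) (Icc (2592 / 8192) (2616 / 8192)) :=
  mk4 p (A := 2604) (B := N.b2604) (a1 := 2592) (a2 := 2616) rfl rfl rfl bo2604 rfl rfl (by norm_num) (by norm_num) (cond_and q2604).2 (by norm_num) (by norm_num) hn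
theorem s4_2632 {n : ℕ} (hn : 4 ≤ n) : StrictAntiOn (D n) (Icc (2616 / 8192) (2648 / 8192)) :=
  mk4 p (A := 2632) (B := N.b2632) (a1 := 2616) (a2 := 2648) rfl rfl rfl bo2632 rfl rfl (by norm_num) (by norm_num) (cond_and q2632).2 (by norm_num) (by norm_num) hn
theorem s4_2664 {n : ℕ} (hn : 4 ≤ n) : StrictAntiOn (D n) (Icc (2648 / 8192) (2680 / 8192)) :=
  mk4 p (A := 2664) (B := N.b2664) (a1 := 2648) (a2 := 2680) rfl rfl rfl bo2664 rfl rfl (by norm_num) (by norm_num) (cond_and q2664).2 (by norm_num) (by norm_num) hn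
theorem s4_2696 {n : ℕ} (hn : 4 ≤ n) : StrictAntiOn (D n) (Icc (2680 / 8192) (2712 / 8192)) :=
  mk4 p (A := 2696) (B := N.b2696) (a1 := 2680) (a2 := 2712) rfl rfl rfl bo2696 rfl rfl (by norm_num) (by norm_num) (cond_and q2696).2 (by norm_num) (by norm_num) hn
theorem s4_2724 {n : ℕ} (hn : 4 ≤ n) : StrictAntiOn (D n) (Icc (2712 / 8192) (2736 / 8192)) :=
  mk4 p (A := 2724) (B := N.b2724) (a1 := 2712) (a2 := 2736) rfl rfl rfl bo2724 rfl rfl (by norm_num) (by norm_num) (cond_and q2724).2 (by norm_num) (by norm_num) hn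
theorem s4_2748 {n : ℕ} (hn : 4 ≤ n) : StrictAntiOn (D n) (Icc (2736 / 8192) (2760 / 8192)) :=
  mk4 p (A := 2748) (B := N.b2748) (a1 := 2736) (a2 := 2760) rfl rfl rfl bo2748 rfl rfl (by norm_num) (by norm_num) (cond_and q2748).2 (by norm_num) (by norm_num) hn
theorem s4_2762 {n : ℕ} (hn : 4 ≤ n) : StrictAntiOn (D n) (Icc (2750 / 8192) (2774 / 8192)) :=
  mk4 p (A := 2762) (B := N.b2762) (a1 := 2750) (a2 := 2774) rfl rfl rfl bo2762 rfl rfl (by norm_num) (by norm_num) (cond_and q2762).2 (by norm_num) (by norm_num) hn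
theorem s4_2786 {n : ℕ} (hn : 4 ≤ n) : StrictAntiOn (D n) (Icc (2774 / 8192) (2798 / 8192)) :=
  mk4 p (A := 2786) (B := N.b2786) (a1 := 2774) (a2 := 2798) rfl rfl rfl bo2786 rfl rfl (by norm_num) (by norm_num) (cond_and q2786).2 (by norm_num) (by norm_num) hn

theorem d4 {n : ℕ} (hn : 4 ≤ n) : StrictAntiOn (D n) (Icc (2048 / 8192) (2798 / 8192)) := by
  have h0 := s4_2056 p hn
  have h1 := glueA h0 (s4_2072 p hn) (by norm_num) (by norm_num)
  have h2 := glueA h1 (s4_2088 p hn) (by norm_num) (by norm_num)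
  have h3 := glueA h2 (s4_2108 p hn) (by norm_num) (by norm_num)
  have h4 := glueA h3 (s4_2132 p hn) (by norm_num) (by norm_num)
  have h5 := glueA h4 (s4_2156 p hn) (by norm_num) (by norm_num)
  have h6 := glueA h5 (s4_2180 p hn) (by norm_num) (by norm_num)
  have h7 := glueA h6 (s4_2204 p hn) (by norm_num) (by norm_num)
  have h8 := glueA h7 (s4_2228 p hn) (by norm_num) (by norm_num)
  have h9 := glueA h8 (s4_2252 p hn) (by norm_num) (by norm_num)
  have h10 := glueA h9 (s4_2280 p hn) (by norm_num) (by norm_num)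
  have h11 := glueA h10 (s4_2312 p hn) (by norm_num) (by norm_num)
  have h12 := glueA h11 (s4_2344 p hn) (by norm_num) (by norm_num)
  have h13 := glueA h12 (s4_2376 p hn) (by norm_num) (by norm_num)
  have h14 := glueA h13 (s4_2408 p hn) (by norm_num) (by norm_num)
  have h15 := glueA h14 (s4_2440 p hn) (by norm_num) (by norm_num)
  have h16 := glueA h15 (s4_2468 p hn) (by norm_num) (by norm_num)
  have h17 := glueA h16 (s4_2488 p hn) (by norm_num) (by norm_num)
  have h18 := glueA h17 (s4_2504 p hn) (by norm_num) (by norm_num)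
  have h19 := glueA h18 (s4_2508 p hn) (by norm_num) (by norm_num)
  have h20 := glueA h19 (s4_2522 p hn) (by norm_num) (by norm_num)
  have h21 := glueA h20 (s4_2532 p hn) (by norm_num) (by norm_num)
  have h22 := glueA h21 (s4_2540 p hn) (by norm_num) (by norm_num)
  have h23 := glueA h22 (s4_2547 p hn) (by norm_num) (by norm_num)
  have h24 := glueA h23 (s4_2553 p hn) (by norm_num) (by norm_num)
  have h25 := glueA h24 (s4_2560 p hn) (by norm_num) (by norm_num)
  have h26 := glueA h25 (s4_2570 p hn) (by norm_num) (by norm_num)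
  have h27 := glueA h26 (s4_2584 p hn) (by norm_num) (by norm_num)
  have h28 := glueA h27 (s4_2604 p hn) (by norm_num) (by norm_num)
  have h29 := glueA h28 (s4_2632 p hn) (by norm_num) (by norm_num)
  have h30 := glueA h29 (s4_2664 p hn) (by norm_num) (by norm_num)
  have h31 := glueA h30 (s4_2696 p hn) (by norm_num) (by norm_num)
  have h32 := glueA h31 (s4_2724 p hn) (by norm_num) (by norm_num)
  have h33 := glueA h32 (s4_2748 p hn) (by norm_num) (by norm_num)
  have h34 := glueA h33 (s4_2762 p hn) (by norm_num) (by norm_num)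
  have h35 := glueA h34 (s4_2786 p hn) (by norm_num) (by norm_num)
  exact h35

theorem v3_3180 : V (3180 / 8192) 3 < P (3180 / 8192) ∧ V (3180 / 8192) 3 < P (3400 / 8192) :=
  ⟨val3 p (A := 3180) (B := p3180) (b := 3180) rfl rfl rfl bp3180 rfl (by norm_num) (by norm_num) (cond_and e3180).1 (by norm_num) (by norm_num),
    val3 p (A := 3180) (B := p3180) (b := 3400) rfl rfl rfl bp3180 rfl (by norm_num) (by norm_num) (cond_and e3180).2 (by norm_num) (by norm_num)⟩
theorem v3_3400 : V (3400 / 8192) 3 < P (3400 / 8192) ∧ V (3400 / 8192) 3 < P (3629 / 8192) :=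
  ⟨val3 p (A := 3400) (B := p3400) (b := 3400) rfl rfl rfl bp3400 rfl (by norm_num) (by norm_num) (cond_and e3400).1 (by norm_num) (by norm_num),
    val3 p (A := 3400) (B := p3400) (b := 3629) rfl rfl rfl bp3400 rfl (by norm_num) (by norm_num) (cond_and e3400).2 (by norm_num) (by norm_num)⟩
theorem v3_3629 : V (3629 / 8192) 3 < P (3629 / 8192) ∧ V (3629 / 8192) 3 < P (3801 / 8192) :=
  ⟨val3 p (A := 3629) (B := p3629) (b := 3629) rfl rfl rfl bp3629 rfl (by norm_num) (by norm_num) (cond_and e3629).1 (by norm_num) (by norm_num),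
    val3 p (A := 3629) (B := p3629) (b := 3801) rfl rfl rfl bp3629 rfl (by norm_num) (by norm_num) (cond_and e3629).2 (by norm_num) (by norm_num)⟩
theorem v3_3801 : V (3801 / 8192) 3 < P (3801 / 8192) ∧ V (3801 / 8192) 3 < P (3908 / 8192) :=
  ⟨val3 p (A := 3801) (B := p3801) (b := 3801) rfl rfl rfl bp3801 rfl (by norm_num) (by norm_num) (cond_and e3801).1 (by norm_num) (by norm_num),
    val3 p (A := 3801) (B := p3801) (b := 3908) rfl rfl rfl bp3801 rfl (by norm_num) (by norm_num) (cond_and e3801).2 (by norm_num) (by norm_num)⟩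
theorem v3_3908 : V (3908 / 8192) 3 < P (3908 / 8192) ∧ V (3908 / 8192) 3 < P (3932 / 8192) :=
  ⟨val3 p (A := 3908) (B := p3908) (b := 3908) rfl rfl rfl bp3908 rfl (by norm_num) (by norm_num) (cond_and e3908).1 (by norm_num) (by norm_num),
    val3 p (A := 3908) (B := p3908) (b := 3932) rfl rfl rfl bp3908 rfl (by norm_num) (by norm_num) (cond_and e3908).2 (by norm_num) (by norm_num)⟩
theorem v4_2798 : V (2798 / 8192) 4 + (107312334870 / 2 ^ 40) * (202 / 8192) < P (2798 / 8192) ∧ V (2798 / 8192) 4 + (107312334870 / 2 ^ 40) * (202 / 8192) < P (3000 / 8192) :=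
  ⟨val4 p (A := 2798) (B := p2798) (r := 202) (b := 2798) rfl rfl rfl bp2798 rfl (by norm_num) (by norm_num) (cond_and e2798).1 (by norm_num) (by norm_num) (by norm_num),
    val4 p (A := 2798) (B := p2798) (r := 202) (b := 3000) rfl rfl rfl bp2798 rfl (by norm_num) (by norm_num) (cond_and e2798).2 (by norm_num) (by norm_num) (by norm_num)⟩
theorem v4_3000 : V (3000 / 8192) 4 + (107312334870 / 2 ^ 40) * (180 / 8192) < P (3000 / 8192) ∧ V (3000 / 8192) 4 + (107312334870 / 2 ^ 40) * (180 / 8192) < P (3180 / 8192) :=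
  ⟨val4 p (A := 3000) (B := p3000) (r := 180) (b := 3000) rfl rfl rfl bp3000 rfl (by norm_num) (by norm_num) (cond_and e3000).1 (by norm_num) (by norm_num) (by norm_num),
    val4 p (A := 3000) (B := p3000) (r := 180) (b := 3180) rfl rfl rfl bp3000 rfl (by norm_num) (by norm_num) (cond_and e3000).2 (by norm_num) (by norm_num) (by norm_num)⟩

theorem cells : Cells :=
  ⟨d3 p, w3c p, i3 p, fun _ hn => d4 p hn, t4 p, v3_3180 p, v3_3400 p, v3_3629 p, v3_3801 p, v3_3908 p,
    v4_2798 p, v4_3000 p, fun _ h1 h2 => near_P p epd h1 h2⟩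

end

end Pool.Agent.Helper63.TH
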