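import Pool.Agent.Helper53.PT.B
import Pool.Agent.Helper53.PT.GoalsC
import Pool.Agent.Helper63.P705.NUM.Asm
import Pool.Agent.Helper63.TH.Chk

/-!
# MP_705522_gt, thresholds: definitions

`V θ n` = value at the main diagonal of `ℝ^n`, `P θ` = value at the pair diagonals (`= V θ 2`).
-/

namespace Pool.Agent.Helper63.TH

open MeasureTheory Set Filter Topology
open Pool.Agent.Helper53.PT

/-- the value of `G` at the pair diagonals -/
noncomputable def P (θ : ℝ) : ℝ := Real.pi / 2 * (2 : ℝ) ^ (θ - 1 / 2) / sg θ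

noncomputable def LP (θ : ℝ) : ℝ := Real.log (P θ)

/-- What is known about two angles `θ ≤ θ'` in the cell `[a1, a2]/8192` with base data `B`. -/
structure Two (B : N.Base) (a1 a2 : ℕ) (θ θ' : ℝ) : Prop where
  th0 : 1 / 4 ≤ θ
  h : θ ≤ θ'
  th1 : θ' < 1 / 2
  tb : TBF B θ
  tb' : TBF B θ'
  ch : CHF B θ
  ch' : CHF B θ'
  /-- `|f0| ≤ c0` beyond `64` -/
  c0 : ∀ x, 64 ≤ x → |f0 θ x| ≤ vR B.c0 ∧ |f0 θ' x| ≤ vR B.c0
  u2 : mo θ' 2 - mo θ 2 ≤ (θ' - θ) * vR (b2U a2)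
  u3 : mo θ' 3 - mo θ 3 ≤ (θ' - θ) * vR (b3U a2)
  um : m3 θ' - m3 θ ≤ (θ' - θ) * vR (bmU a2)
  l2 : (θ' - θ) * vR (b2L a1) ≤ mo θ' 2 - mo θ 2

end Pool.Agent.Helper63.TH
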