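import Pool.Agent.Helper63.TH.Defs
import Pool.Agent.Helper53.PT.Fin3

/-!
# MP_705522_gt, thresholds: translation between `JJ p n` and `V θ n`, `θ = (p-1)/p`
-/

namespace Pool.Agent.Helper63.TH

open MeasureTheory Set Filter Topology
open Pool.Agent.Helper53.PT
open Pool.Agent.Helper7.Proj (Bp projVol)

theorem jv_V {p : ℝ} (hp : 1 < p) (hp2 : p < 2) (n : ℕ) :
    JJ p (n + 1) = 2 / Real.pi * sg ((p - 1) / p) * V ((p - 1) / p) (n + 1) := by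
  obtain ⟨w, hw, hm⟩ := exists_main n
  have h1 := vol_main hp hp2 w hw hm
  rw [vol_eq hp hp2 w hw] at h1
  have h2 := mul_left_cancel₀ (V_pos hp n).ne' h1
  rw [← h2]
  have h3 : (fun i => w i ^ 2) = fun _ : Fin (n + 1) => 1 / ((n + 1 : ℕ) : ℝ) := by
    ext i
    rw [← sq_abs, hm i, div_pow, one_pow, Real.sq_sqrt (by positivity)]
  unfold V
  rw [h3]

theorem jv_P {p : ℝ} (hp : 1 < p) (hp2 : p < 2) :
    (2 : ℝ) ^ (1 / 2 - 1 / p) = 2 / Real.pi * sg ((p - 1) / p) * P ((p - 1) / p) := by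
  have hp0 : 0 < p := by linarith
  have h0 : 0 < (p - 1) / p := div_pos (by linarith) hp0
  have h1 : (p - 1) / p < 1 := by rw [div_lt_one hp0]; linarith
  have hs := sg_pos h0 h1
  have hpi := Real.pi_pos
  unfold P
  have : (p - 1) / p - 1 / 2 = 1 / 2 - 1 / p := by field_simp; ring
  rw [this]
  field_simp

theorem jv_lt {p : ℝ} (hp : 1 < p) (hp2 : p < 2) (n : ℕ) :
    (JJ p (n + 1) < (2 : ℝ) ^ (1 / 2 - 1 / p) ↔ V ((p - 1) / p) (n + 1) < P ((p - 1) / p)) ∧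
    ((2 : ℝ) ^ (1 / 2 - 1 / p) < JJ p (n + 1) ↔ P ((p - 1) / p) < V ((p - 1) / p) (n + 1)) ∧
    (JJ p (n + 1) = (2 : ℝ) ^ (1 / 2 - 1 / p) ↔ V ((p - 1) / p) (n + 1) = P ((p - 1) / p)) := by
  have hp0 : 0 < p := by linarith
  have h0 : 0 < (p - 1) / p := div_pos (by linarith) hp0
  have h1 : (p - 1) / p < 1 := by rw [div_lt_one hp0]; linarith
  have hs := sg_pos h0 h1
  have hpi := Real.pi_pos
  have hc : 0 < 2 / Real.pi * sg ((p - 1) / p) := by positivity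
  rw [jv_V hp hp2, jv_P hp hp2]
  exact ⟨mul_lt_mul_iff_right₀ hc, mul_lt_mul_iff_right₀ hc,
    ⟨fun h => mul_left_cancel₀ hc.ne' h, fun h => by rw [h]⟩⟩

/-- `θ = 1/4`. -/
theorem quarter {n : ℕ} (hn : 3 ≤ n) : P (1 / 4) < V (1 / 4) n := by
  obtain ⟨m, rfl⟩ : ∃ m, n = m + 1 := ⟨n - 1, by omega⟩
  have h := lt_low (p := 4 / 3) (by norm_num) le_rfl (n := m) (by omega)
  have h2 := ((jv_lt (p := 4 / 3) (by norm_num) (by norm_num) m).2.1).1 h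
  have e : ((4 : ℝ) / 3 - 1) / (4 / 3) = 1 / 4 := by norm_num
  rw [e] at h2
  exact h2

/-- For `θ > 1/4` the main diagonal is better in large dimension. -/
theorem large {θ : ℝ} (h0 : 1 / 4 < θ) (h1 : θ < 1 / 2) : ∃ n0 : ℕ, ∀ n : ℕ, n0 ≤ n → V θ n < P θ := by
  have hq : 0 < 1 - θ := by linarith
  have e : (1 / (1 - θ) - 1) / (1 / (1 - θ)) = θ := by field_simp; ring
  have hp : 4 / 3 < 1 / (1 - θ) := by rw [lt_div_iff₀ hq]; linarith
  have hp2 : 1 / (1 - θ) < 2 := by rw [div_lt_iff₀ hq]; linarith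
  obtain ⟨n0, h⟩ := cltJ hp hp2
  refine ⟨n0 + 1, fun n hn => ?_⟩
  obtain ⟨m, rfl⟩ : ∃ m, n = m + 1 := ⟨n - 1, by omega⟩
  have := ((jv_lt (by linarith) hp2 m).1).1 (h m (by omega))
  rwa [e] at this

end Pool.Agent.Helper63.TH
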