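import Pool.Agent.Helper63.TH.Asm
import Pool.Agent.Helper63.TH.JV

/-!
# MP_705522_gt, thresholds: the theorem, from the packets and the cells
-/

namespace Pool.Agent.Helper63.TH

open MeasureTheory Set Filter Topology
open Pool.Agent.Helper53.PT
open Pool.Agent.Helper63.P705 (NumOK)

/-- what the cells give -/
structure Cells : Prop where
  d3 : StrictAntiOn (D 3) (Icc (2048 / 8192) (3180 / 8192))
  w3 : AntitoneOn (fun θ => V θ 3) (Icc (3180 / 8192) (3932 / 8192))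
  i3 : StrictMonoOn (D 3) (Icc (3932 / 8192) (4060 / 8192))
  d4 : ∀ n, 4 ≤ n → StrictAntiOn (D n) (Icc (2048 / 8192) (2798 / 8192))
  t4 : AntitoneOn (fun θ => V θ 4 - (107312334870 / 2 ^ 40) * θ) (Icc (2798 / 8192) (3180 / 8192))
  a1 : V (3180 / 8192) 3 < P (3180 / 8192) ∧ V (3180 / 8192) 3 < P (3400 / 8192)
  a2 : V (3400 / 8192) 3 < P (3400 / 8192) ∧ V (3400 / 8192) 3 < P (3629 / 8192)
  a3 : V (3629 / 8192) 3 < P (3629 / 8192) ∧ V (3629 / 8192) 3 < P (3801 / 8192)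
  a4 : V (3801 / 8192) 3 < P (3801 / 8192) ∧ V (3801 / 8192) 3 < P (3908 / 8192)
  a5 : V (3908 / 8192) 3 < P (3908 / 8192) ∧ V (3908 / 8192) 3 < P (3932 / 8192)
  b1 : V (2798 / 8192) 4 + (107312334870 / 2 ^ 40) * (202 / 8192) < P (2798 / 8192) ∧
    V (2798 / 8192) 4 + (107312334870 / 2 ^ 40) * (202 / 8192) < P (3000 / 8192)
  b2 : V (3000 / 8192) 4 + (107312334870 / 2 ^ 40) * (180 / 8192) < P (3000 / 8192) ∧
    V (3000 / 8192) 4 + (107312334870 / 2 ^ 40) * (180 / 8192) < P (3180 / 8192)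
  near : ∀ θ : ℝ, 4060 / 8192 ≤ θ → θ < 1 / 2 → √(Real.pi / 2) + 0.36 * (1 / 2 - θ) ≤ P θ

theorem P_pos {θ : ℝ} (h0 : 0 < θ) (h1 : θ < 1) : 0 < P θ := by
  have := sg_pos h0 h1
  unfold P
  positivity

/-- `P` is at least the smaller one of its values at the end points -/
theorem P_min (hc : GPC) {a b θ m : ℝ} (h0 : 1 / 4 ≤ a) (h1 : a ≤ θ) (h2 : θ ≤ b) (h3 : b ≤ 1 / 2)
    (ha : m < P a) (hb : m < P b) : m < P θ := by
  rcases le_or_gt m 0 with hm | hm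
  · exact hm.trans_lt (P_pos (by linarith) (by linarith))
  · have ka := P_pos (by linarith : 0 < a) (by linarith : a < 1)
    have kb := P_pos (by linarith : 0 < b) (by linarith : b < 1)
    have kt := P_pos (by linarith : 0 < θ) (by linarith : θ < 1)
    have hmin := hc.1.min_le_of_mem_Icc (x := a) (y := b) (z := θ) ⟨h0, by linarith⟩
      ⟨by linarith, h3⟩ ⟨h1, h2⟩
    have la : Real.log m < LP a := Real.log_lt_log hm ha
    have lb : Real.log m < LP b := Real.log_lt_log hm hb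
    exact (Real.log_lt_log_iff hm kt).1 ((lt_min la lb).trans_le hmin)

section
variable (p : Pk) (c : Cells)
include p c

theorem seg3 {a b θ : ℝ} (h0 : 3180 / 8192 ≤ a) (h1 : a ≤ θ) (h2 : θ ≤ b) (h3 : b ≤ 3932 / 8192)
    (ha : V a 3 < P a) (hb : V a 3 < P b) : D 3 θ < 0 := by
  have k1 : V θ 3 ≤ V a 3 := c.w3 ⟨h0, by linarith⟩ ⟨h0.trans h1, by linarith⟩ h1
  have k2 := P_min p.pc (by linarith : (1 / 4 : ℝ) ≤ a) h1 h2 (by linarith) ha hb
  unfold D
  linarith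

theorem neg_near {θ : ℝ} (h1 : 4060 / 8192 ≤ θ) (h2 : θ < 1 / 2) : D 3 θ < 0 := by
  obtain ⟨d1, d2⟩ := p.dm p.num θ h1 h2
  have := p.n3 p.dif (p.ng p.fi) θ h1 h2 d1 d2 (c.near θ h1 h2)
  unfold D
  linarith

theorem neg3 {θ : ℝ} (h1 : 3180 / 8192 ≤ θ) (h2 : θ < 1 / 2) : D 3 θ < 0 := by
  rcases le_or_gt (4060 / 8192) θ with h | h
  · exact neg_near p c h h2
  rcases le_or_gt (3932 / 8192) θ with h' | h'
  · exact (c.i3 ⟨h', h.le⟩ ⟨by norm_num, le_rfl⟩ h).trans (neg_near p c le_rfl (by norm_num))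
  rcases le_total θ (3400 / 8192) with k | k1
  · exact seg3 p c le_rfl h1 k (by norm_num) c.a1.1 c.a1.2
  rcases le_total θ (3629 / 8192) with k | k2
  · exact seg3 p c (by norm_num) k1 k (by norm_num) c.a2.1 c.a2.2
  rcases le_total θ (3801 / 8192) with k | k3
  · exact seg3 p c (by norm_num) k2 k (by norm_num) c.a3.1 c.a3.2
  rcases le_total θ (3908 / 8192) with k | k4
  · exact seg3 p c (by norm_num) k3 k (by norm_num) c.a4.1 c.a4.2
  · exact seg3 p c (by norm_num) k4 h'.le le_rfl c.a5.1 c.a5.2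

theorem seg4 {a b r θ : ℝ} (h0 : 2798 / 8192 ≤ a) (h1 : a ≤ θ) (h2 : θ ≤ b) (h3 : b ≤ 3180 / 8192)
    (hr : b - a = r) (ha : V a 4 + (107312334870 / 2 ^ 40) * r < P a)
    (hb : V a 4 + (107312334870 / 2 ^ 40) * r < P b) : D 4 θ < 0 := by
  have k1 : V θ 4 - (107312334870 / 2 ^ 40) * θ ≤ V a 4 - (107312334870 / 2 ^ 40) * a :=
    c.t4 ⟨h0, by linarith⟩ ⟨h0.trans h1, by linarith⟩ h1
  have k2 := P_min p.pc (by linarith : (1 / 4 : ℝ) ≤ a) h1 h2 (by linarith) ha hb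
  have k3 : (107312334870 / 2 ^ 40 : ℝ) * (θ - a) ≤ (107312334870 / 2 ^ 40) * r :=
    mul_le_mul_of_nonneg_left (by linarith) (by norm_num)
  unfold D
  linarith

theorem neg4 {θ : ℝ} (h1 : 2798 / 8192 ≤ θ) (h2 : θ ≤ 3180 / 8192) : D 4 θ < 0 := by
  rcases le_total θ (3000 / 8192) with k | k
  · exact seg4 p c le_rfl h1 k (by norm_num) (by norm_num) c.b1.1 c.b1.2
  · exact seg4 p c (by norm_num) k h2 le_rfl (by norm_num) c.b2.1 c.b2.2

theorem negn (hGT : ∀ θ : ℝ, 1 / 4 ≤ θ → θ < 1 / 2 → GT θ) {n : ℕ} (hn : 4 ≤ n) {θ : ℝ}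
    (h1 : 2798 / 8192 ≤ θ) (h2 : θ < 1 / 2) : D n θ < 0 := by
  have hθ : 1 / 4 ≤ θ := by linarith
  rcases le_total θ (3180 / 8192) with k | k
  · have h4 := neg4 p c h1 k
    have := (p.mon p.vp θ hθ h2 (hGT θ hθ h2) 4 n (by norm_num) hn).1 (by unfold D at h4; linarith)
    unfold D
    linarith
  · have h4 := neg3 p c k h2
    have := (p.mon p.vp θ hθ h2 (hGT θ hθ h2) 3 n le_rfl (by omega)).1 (by unfold D at h4; linarith)
    unfold D
    linarith

omit c in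
theorem cont_D {n : ℕ} (hn : 1 ≤ n) : ContinuousOn (D n) (Ico (1 / 4) (1 / 2)) :=
  (p.cont p.fi p.dif n hn).sub (p.pc.2.1.mono Ico_subset_Icc_self)

omit c in
theorem zero {n : ℕ} (hn : 3 ≤ n) {b : ℝ} (hb : 1 / 4 < b) (hb2 : b < 1 / 2)
    (hd : StrictAntiOn (D n) (Icc (1 / 4) b)) (hneg : ∀ θ, b ≤ θ → θ < 1 / 2 → D n θ < 0) :
    ∃ th : ℝ, 1 / 4 < th ∧ th < 1 / 2 ∧ (∀ θ, 1 / 4 ≤ θ → θ < th → P θ < V θ n) ∧ V th n = P th ∧
      ∀ θ, th < θ → θ < 1 / 2 → V θ n < P θ := by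
  have hq : 0 < D n (1 / 4) := by
    have := quarter hn
    unfold D
    linarith
  have hb0 := hneg b le_rfl hb2
  have hc : ContinuousOn (D n) (Icc (1 / 4) b) :=
    (cont_D p (by omega)).mono (Icc_subset_Ico_right hb2)
  obtain ⟨th, hth, h0⟩ := intermediate_value_Icc' hb.le hc ⟨hb0.le, hq.le⟩
  have e1 : 1 / 4 < th := by
    rcases hth.1.lt_or_eq with h | h
    · exact h
    · rw [← h] at h0; linarith
  have e2 : th < b := by
    rcases hth.2.lt_or_eq with h | h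
    · exact h
    · rw [h] at h0; linarith
  refine ⟨th, e1, by linarith, fun θ k1 k2 => ?_, ?_, fun θ k1 k2 => ?_⟩
  · have := hd ⟨k1, by linarith⟩ hth k2
    rw [h0] at this
    unfold D at this
    linarith
  · unfold D at h0
    linarith
  · rcases le_total θ b with k | k
    · have := hd hth ⟨by linarith, k⟩ k1
      rw [h0] at this
      unfold D at this
      linarith
    · have := hneg θ k k2
      unfold D at this
      linarith

/-- THE THEOREM: for every `n ≥ 3` exactly one threshold. -/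
theorem thr_of (hGT : ∀ θ : ℝ, 1 / 4 ≤ θ → θ < 1 / 2 → GT θ) (n : ℕ) (hn : 3 ≤ n) :
    ∃ th : ℝ, 1 / 4 < th ∧ th < 1 / 2 ∧ (∀ θ, 1 / 4 ≤ θ → θ < th → P θ < V θ n) ∧ V th n = P th ∧
      ∀ θ, th < θ → θ < 1 / 2 → V θ n < P θ := by
  have e : (2048 / 8192 : ℝ) = 1 / 4 := by norm_num
  rcases hn.lt_or_eq with h | h
  · have d4 := c.d4 n h
    rw [e] at d4
    exact zero p hn (by norm_num) (by norm_num) d4 fun θ h1 h2 => negn p c hGT h h1 h2
  · subst h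
    have d3 := c.d3
    rw [e] at d3
    exact zero p le_rfl (by norm_num) (by norm_num) d3 fun θ h1 h2 => neg3 p c h1 h2

end

/-- The thresholds decrease strictly. -/
theorem thr_anti (hvp : GVP) (hm : GMON) (hGT : ∀ θ : ℝ, 1 / 4 ≤ θ → θ < 1 / 2 → GT θ) {m n : ℕ}
    (h3 : 3 ≤ m) (hmn : m < n) {s t : ℝ} (hs : 1 / 4 < s) (hs2 : s < 1 / 2) (es : V s m = P s)
    (ht : ∀ θ, 1 / 4 ≤ θ → θ < t → P θ < V θ n) (et : V t n = P t) : t < s := by
  have k := (hm hvp s hs.le hs2 (hGT s hs.le hs2) m n h3 hmn.le).2 hmn es.le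
  rw [es] at k
  rcases lt_trichotomy t s with h | h | h
  · exact h
  · rw [h] at et; linarith
  · have := ht s hs.le h; linarith

/-- The thresholds tend to `1/4`. -/
theorem thr_lim {ε : ℝ} (hε : 0 < ε) : ∃ n0 : ℕ, ∀ n : ℕ, n0 ≤ n → ∀ t : ℝ, t < 1 / 2 →
    (∀ θ, 1 / 4 ≤ θ → θ < t → P θ < V θ n) → t < 1 / 4 + ε := by
  have hs : 1 / 4 < 1 / 4 + min (ε / 2) (1 / 8) := by
    have : 0 < min (ε / 2) (1 / 8 : ℝ) := lt_min (by linarith) (by norm_num)
    linarith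
  have hs2 : 1 / 4 + min (ε / 2) (1 / 8) < 1 / 2 := by
    have := min_le_right (ε / 2) (1 / 8 : ℝ)
    linarith
  obtain ⟨n0, h⟩ := large hs hs2
  refine ⟨n0, fun n hn t _ hp => ?_⟩
  by_contra hc
  have k1 : 1 / 4 + min (ε / 2) (1 / 8) < t := by
    have := min_le_left (ε / 2) (1 / 8 : ℝ)
    linarith [not_lt.1 hc]
  have := hp _ hs.le k1
  have := h n hn
  linarith

end Pool.Agent.Helper63.TH
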