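import Pool.Agent.Helper63.TH.Fin

/-!
# MP_705522_gt, thresholds: from the checks to monotonicity on the cells
-/

namespace Pool.Agent.Helper63.TH

open MeasureTheory Set Filter Topology
open Pool.Agent.Helper53.PT
open Pool.Agent.Helper63.P705 (NumOK baseOK base_facts tabP tabS tabT)

theorem cond_and {a b : Bool} (h : cond a b false = true) : a = true ∧ b = true := by
  cases a
  · exact absurd h (by simp)
  · exact ⟨rfl, h⟩

section
variable (p : Pk)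
include p

/-- the cell `[x,y] = [a1,a2]/8192` -/
theorem mk3 {A : ℕ} {B : N.Base} {a1 a2 : ℕ} {x y : ℝ} (h0 : B.T0 = tabP A) (h1 : B.T1 = tabS A)
    (h2 : B.T2 = tabT A) (hb : baseOK A B = true) (e1 : a1 + B.h = A) (e2 : a2 = A + B.h)
    (l1 : 2048 ≤ a1) (l2 : a2 ≤ 4094) (hk : ok3 B a1 a2 = true) (hx : x = (a1 : ℝ) / 8192)
    (hy : y = (a2 : ℝ) / 8192) : StrictAntiOn (D 3) (Icc x y) := by
  intro s hs t ht hst
  rw [hx] at hs
  rw [hy] at ht
  exact cell3 p l1 (by omega) l2 hk (two_of p h0 h1 h2 hb e1 e2 l1 l2 hs.1 hst.le ht.2) ht.2 hst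

theorem mk4 {A : ℕ} {B : N.Base} {a1 a2 : ℕ} {x y : ℝ} (h0 : B.T0 = tabP A) (h1 : B.T1 = tabS A)
    (h2 : B.T2 = tabT A) (hb : baseOK A B = true) (e1 : a1 + B.h = A) (e2 : a2 = A + B.h)
    (l1 : 2048 ≤ a1) (l2 : a2 ≤ 4094) (hk : ok4 B a1 a2 = true) (hx : x = (a1 : ℝ) / 8192)
    (hy : y = (a2 : ℝ) / 8192) {n : ℕ} (hn : 4 ≤ n) : StrictAntiOn (D n) (Icc x y) := by
  intro s hs t ht hst
  rw [hx] at hs
  rw [hy] at ht
  exact cell4 p l1 (by omega) l2 hk (two_of p h0 h1 h2 hb e1 e2 l1 l2 hs.1 hst.le ht.2) ht.2 hst hn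

theorem mkT {A : ℕ} {B : N.Base} {a1 a2 : ℕ} {x y : ℝ} (h0 : B.T0 = tabP A) (h1 : B.T1 = tabS A)
    (h2 : B.T2 = tabT A) (hb : baseOK A B = true) (e1 : a1 + B.h = A) (e2 : a2 = A + B.h)
    (l1 : 2048 ≤ a1) (l2 : a2 ≤ 4094) (hk : okT B a1 a2 = true) (hx : x = (a1 : ℝ) / 8192)
    (hy : y = (a2 : ℝ) / 8192) :
    AntitoneOn (fun θ => V θ 4 - (107312334870 / 2 ^ 40) * θ) (Icc x y) := by
  intro s hs t ht hst
  rw [hx] at hs
  rw [hy] at ht
  have := cellT p hk (two_of p h0 h1 h2 hb e1 e2 l1 l2 hs.1 hst ht.2)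
  show V t 4 - (107312334870 / 2 ^ 40) * t ≤ V s 4 - (107312334870 / 2 ^ 40) * s
  linarith

theorem mkm {A : ℕ} {B : N.Base} {a1 a2 : ℕ} {x y : ℝ} (h0 : B.T0 = tabP A) (h1 : B.T1 = tabS A)
    (h2 : B.T2 = tabT A) (hb : baseOK A B = true) (e1 : a1 + B.h = A) (e2 : a2 = A + B.h)
    (l1 : 2048 ≤ a1) (l2 : a2 ≤ 4094) (hk : okm B a1 a2 = true) (hx : x = (a1 : ℝ) / 8192)
    (hy : y = (a2 : ℝ) / 8192) : AntitoneOn (fun θ => V θ 3) (Icc x y) := by
  intro s hs t ht hst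
  rw [hx] at hs
  rw [hy] at ht
  exact cellm p hk (two_of p h0 h1 h2 hb e1 e2 l1 l2 hs.1 hst ht.2)

theorem mk5 {A : ℕ} {B : N.Base} {a1 a2 : ℕ} {x y : ℝ} (h0 : B.T0 = tabP A) (h1 : B.T1 = tabS A)
    (h2 : B.T2 = tabT A) (hb : baseOK A B = true) (e1 : a1 + B.h = A) (e2 : a2 = A + B.h)
    (l1 : 2049 ≤ a1) (l2 : a2 ≤ 4094) (hk : ok5 B a1 a2 = true) (hx : x = (a1 : ℝ) / 8192)
    (hy : y = (a2 : ℝ) / 8192) : StrictMonoOn (D 3) (Icc x y) := by
  intro s hs t ht hst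
  rw [hx] at hs
  rw [hy] at ht
  exact cell5 p l1 (by omega) l2 hk (two_of p h0 h1 h2 hb e1 e2 (by omega) l2 hs.1 hst.le ht.2)
    hs.1 hst

/-- base facts at a point -/
theorem pt_facts {A : ℕ} {B : N.Base} (h0 : B.T0 = tabP A) (h1 : B.T1 = tabS A)
    (h2 : B.T2 = tabT A) (hb : baseOK A B = true) (hh : B.h = 0) :
    BaseFacts A B ((A : ℝ) / 8192) ∧ TBF B ((A : ℝ) / 8192) ∧ CHF B ((A : ℝ) / 8192) := by
  have b : BaseFacts A B ((A : ℝ) / 8192) := base_facts h0 h1 h2 hb (by rw [hh]; simp) (by rw [hh]; simp)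
  have t := p.tb p.sq p.fl p.gr A B _ b
  exact ⟨b, t, p.ch p.fl p.gr A B _ b t⟩

theorem val3 {A : ℕ} {B : N.Base} {b : ℕ} (h0 : B.T0 = tabP A) (h1 : B.T1 = tabS A)
    (h2 : B.T2 = tabT A) (hb : baseOK A B = true) (hh : B.h = 0) (l1 : 2048 ≤ b) (l2 : b < 4096)
    (hk : lt3 B b = true) {x y : ℝ} (hx : x = (A : ℝ) / 8192) (hy : y = (b : ℝ) / 8192) :
    V x 3 < P y := by
  obtain ⟨b0, t, c⟩ := pt_facts p h0 h1 h2 hb hh
  rw [hx, hy]
  have v := (p.val p.po p.gr p.lb A B _ b0 t c).1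
  have q := p.pv p.ex p.ln p.num b l1 l2
  unfold lt3 at hk
  rw [Nat.ble_eq] at hk
  have hk' : 1894934074 * 1099511627776 + 1000000000 * tm B + 1 ≤
    1570796325 * pv b + 1000000000 * tp B 3 13 := hk
  have hr : (1894934074 * 1099511627776 + 1000000000 * tm B + 1 : ℝ) ≤
    1570796325 * pv b + 1000000000 * tp B 3 13 := by exact_mod_cast hk'
  have p1 := Real.pi_gt_d20
  have p2 := Real.pi_lt_d20
  have hq : Real.pi ^ 2 / 6 + 1 / 4 ≤ 1.894934074 := by nlinarith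
  have hp : 1.570796325 * vR (pv b) ≤ Real.pi / 2 * vR (pv b) :=
    mul_le_mul_of_nonneg_right (by linarith) (vR_nn _)
  have key : 1.894934074 - vR (tp B 3 13) + vR (tm B) < 1.570796325 * vR (pv b) := by
    unfold vR
    rw [← sub_pos]
    have e : 1.570796325 * ((pv b : ℝ) / 2 ^ 40) - (1.894934074 - (tp B 3 13 : ℝ) / 2 ^ 40 +
        (tm B : ℝ) / 2 ^ 40) = (1570796325 * pv b + 1000000000 * tp B 3 13 -
        (1894934074 * 1099511627776 + 1000000000 * tm B)) / (1000000000 * 2 ^ 40) := by ring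
    rw [e]
    apply div_pos _ (by norm_num)
    linarith
  linarith

theorem val4 {A : ℕ} {B : N.Base} {r b : ℕ} (h0 : B.T0 = tabP A) (h1 : B.T1 = tabS A)
    (h2 : B.T2 = tabT A) (hb : baseOK A B = true) (hh : B.h = 0) (l1 : 2048 ≤ b) (l2 : b < 4096)
    (hk : lt4 B r b = true) {x y z : ℝ} (hx : x = (A : ℝ) / 8192) (hy : y = (b : ℝ) / 8192)
    (hz : z = (r : ℝ) / 8192) : V x 4 + (107312334870 / 2 ^ 40) * z < P y := by
  obtain ⟨b0, t, c⟩ := pt_facts p h0 h1 h2 hb hh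
  rw [hx, hy, hz]
  have v := (p.val p.po p.gr p.lb A B _ b0 t c).2
  have q := p.pv p.ex p.ln p.num b l1 l2
  unfold lt4 at hk
  rw [Nat.ble_eq] at hk
  have e13 : Nat.shiftRight (Nat.mul r 107312334870) 13 = (r * 107312334870) / 2 ^ 13 :=
    Nat.shiftRight_eq_div_pow _ _
  rw [e13] at hk
  have hk' : 1894934074 * 1099511627776 + 1000000000 * ((r * 107312334870) / 2 ^ 13 + 1) + 1 ≤
    1570796325 * pv b + 1000000000 * tp B 4 15 := hk
  have hd : (r * 107312334870 : ℕ) < ((r * 107312334870) / 2 ^ 13 + 1) * 2 ^ 13 := by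
    have := Nat.lt_div_mul_add (a := r * 107312334870) (b := 2 ^ 13) (by norm_num)
    rw [add_mul, one_mul]
    exact this
  set d : ℕ := (r * 107312334870) / 2 ^ 13 + 1 with hdd
  have hr : (1894934074 * 1099511627776 + 1000000000 * d + 1 : ℝ) ≤
    1570796325 * pv b + 1000000000 * tp B 4 15 := by exact_mod_cast hk'
  have hd' : (r * 107312334870 : ℝ) < d * 2 ^ 13 := by exact_mod_cast hd
  have p1 := Real.pi_gt_d20
  have p2 := Real.pi_lt_d20
  have hq : Real.pi ^ 2 / 6 + 1 / 4 ≤ 1.894934074 := by nlinarith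
  have hp : 1.570796325 * vR (pv b) ≤ Real.pi / 2 * vR (pv b) :=
    mul_le_mul_of_nonneg_right (by linarith) (vR_nn _)
  have key : 1.894934074 - vR (tp B 4 15) + (107312334870 / 2 ^ 40) * ((r : ℝ) / 8192) <
      1.570796325 * vR (pv b) := by
    unfold vR
    rw [← sub_pos]
    have e : 1.570796325 * ((pv b : ℝ) / 2 ^ 40) - (1.894934074 - (tp B 4 15 : ℝ) / 2 ^ 40 +
        (107312334870 / 2 ^ 40) * ((r : ℝ) / 8192)) =
        (1570796325 * pv b + 1000000000 * tp B 4 15 - (1894934074 * 1099511627776) -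
        1000000000 * (r * 107312334870 / 2 ^ 13)) / (1000000000 * 2 ^ 40) := by ring
    rw [e]
    apply div_pos _ (by norm_num)
    have : (r * 107312334870 / 2 ^ 13 : ℝ) < d := by
      rw [div_lt_iff₀ (by norm_num)]
      exact hd'
    linarith
  linarith

theorem near_P (he : Nat.ble 315871000000 (pD 4060) = true) {θ : ℝ} (h1 : 4060 / 8192 ≤ θ)
    (h2 : θ < 1 / 2) : √(Real.pi / 2) + 0.36 * (1 / 2 - θ) ≤ P θ := by
  rw [Nat.ble_eq] at he
  have hp : 0 < pD 4060 := lt_of_lt_of_le (by norm_num) he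
  have q := (p.psl p.num p.pc).2 4060 (by norm_num) (by norm_num) θ (1 / 2) (by push_cast; exact h1)
    h2.le le_rfl hp
  rw [p.pc.2.2.2.1] at q
  have he' : (315871000000 : ℝ) ≤ pD 4060 := by exact_mod_cast he
  have k : 0.36 ≤ 1.2533 * vR (pD 4060) := by
    unfold vR
    rw [mul_div_assoc', le_div_iff₀ (by norm_num)]
    linarith
  have k2 := mul_le_mul_of_nonneg_left k (by linarith : 0 ≤ 1 / 2 - θ)
  linarith

end

end Pool.Agent.Helper63.TH
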