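import Pool.Agent.Helper63.TH.Fin

/-!
# MP_705522_gt: the thresholds `p_n`, in terms of `p`
-/

namespace Pool.Agent.Helper63.TH

open MeasureTheory Set Filter Topology
open Pool.Agent.Helper53.PT

/-- the threshold of dimension `n` -/
def IsThr (n : ℕ) (t : ℝ) : Prop := 1 / 4 < t ∧ t < 1 / 2 ∧ (∀ θ, 1 / 4 ≤ θ → θ < t → P θ < V θ n) ∧
  V t n = P t ∧ ∀ θ, t < θ → θ < 1 / 2 → V θ n < P θ

/-- From the thresholds `th_n` of `θ` to the thresholds `p_n = 1/(1 - th_n)`. -/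
theorem thr_p_of (hvp : GVP) (hm : GMON) (hGT : ∀ θ : ℝ, 1 / 4 ≤ θ → θ < 1 / 2 → GT θ)
    (hthr : ∀ n, 3 ≤ n → ∃ t, IsThr n t) : ∃ q : ℕ → ℝ,
    (∀ n, 3 ≤ n → 4 / 3 < q n ∧ q n < 2 ∧
      (∀ p : ℝ, 1 < p → p < q n → (2 : ℝ) ^ (1 / 2 - 1 / p) < JJ p n) ∧
      JJ (q n) n = (2 : ℝ) ^ (1 / 2 - 1 / q n) ∧
      (∀ p : ℝ, q n < p → p < 2 → JJ p n < (2 : ℝ) ^ (1 / 2 - 1 / p))) ∧
    (∀ m n, 3 ≤ m → m < n → q n < q m) ∧ Tendsto q atTop (𝓝 (4 / 3)) := by
  classical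
  choose t ht using fun n : ℕ => (show ∃ t : ℝ, 3 ≤ n → IsThr n t from by
    by_cases h : 3 ≤ n
    · obtain ⟨t, ht⟩ := hthr n h
      exact ⟨t, fun _ => ht⟩
    · exact ⟨0, fun h' => absurd h' h⟩)
  have key : ∀ θ : ℝ, θ < 1 → (1 / (1 - θ) - 1) / (1 / (1 - θ)) = θ := by
    intro θ h
    have : (1 : ℝ) - θ ≠ 0 := by linarith
    field_simp
    ring
  have th_mono : ∀ p r : ℝ, 0 < p → p < r → (p - 1) / p < (r - 1) / r := by
    intro p r hp hpr
    rw [div_lt_div_iff₀ hp (by linarith)]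
    nlinarith
  refine ⟨fun n => 1 / (1 - t n), fun n hn => ?_, fun m n h3 hmn => ?_, ?_⟩
  · obtain ⟨t0, t1, tl, te, tr⟩ := ht n hn
    have h1 : 0 < 1 - t n := by linarith
    obtain ⟨m, rfl⟩ : ∃ m, n = m + 1 := ⟨n - 1, by omega⟩
    have q0 : 4 / 3 < 1 / (1 - t (m + 1)) := by rw [lt_div_iff₀ h1]; linarith
    have q1 : 1 / (1 - t (m + 1)) < 2 := by rw [div_lt_iff₀ h1]; linarith
    refine ⟨q0, q1, fun p hp hpq => ?_, ?_, fun p hpq hp2 => ?_⟩
    · rcases le_or_gt p (4 / 3) with h | h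
      · exact lt_low hp h (by omega)
      · refine ((jv_lt hp (by linarith) m).2.1).2 (tl _ ?_ ?_)
        · rw [div_le_div_iff₀ (by norm_num) (by linarith)]; linarith
        · have := th_mono p _ (by linarith) hpq
          rwa [key _ (by linarith)] at this
    · refine ((jv_lt (by linarith) q1 m).2.2).2 ?_
      rw [key _ (by linarith)]
      exact te
    · have hp1 : 1 < p := by linarith
      refine ((jv_lt hp1 hp2 m).1).2 (tr _ ?_ ?_)
      · have := th_mono _ p (by positivity) hpq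
        rwa [key _ (by linarith)] at this
      · rw [div_lt_div_iff₀ (by linarith) (by norm_num)]; linarith
  · obtain ⟨t0, t1, tl, te, tr⟩ := ht m h3
    obtain ⟨s0, s1, sl, se, sr⟩ := ht n (by omega)
    have := thr_anti hvp hm hGT h3 hmn t0 t1 te sl se
    show 1 / (1 - t n) < 1 / (1 - t m)
    exact one_div_lt_one_div_of_lt (by linarith) (by linarith)
  · have hlim : Tendsto t atTop (𝓝 (1 / 4)) := by
      rw [Metric.tendsto_atTop]
      intro ε hε
      obtain ⟨n0, h⟩ := thr_lim hε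
      refine ⟨max n0 3, fun n hn => ?_⟩
      obtain ⟨t0, t1, tl, te, tr⟩ := ht n (le_trans (le_max_right _ _) hn)
      have := h n (le_trans (le_max_left _ _) hn) (t n) t1 tl
      rw [Real.dist_eq, abs_lt]
      constructor <;> linarith
    have h2 : Tendsto (fun n => 1 / (1 - t n)) atTop (𝓝 (1 / (1 - 1 / 4))) :=
      Tendsto.div tendsto_const_nhds (tendsto_const_nhds.sub hlim) (by norm_num)
    have e : (1 : ℝ) / (1 - 1 / 4) = 4 / 3 := by norm_num
    rw [e] at h2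
    exact h2

end Pool.Agent.Helper63.TH
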