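import Pool.Agent.Helper63.TH.Chain
import Pool.Agent.Helper63.TH.ThrP
import Pool.Agent.Helper53.PT.Full
import Pool.Agent.Helper63.P705.NUM.Final
import Pool.Agent.Helper50.TH.K2B
import Pool.Agent.Helper93.TH.CXO
import Pool.Agent.Helper4.TH.VP
import Pool.Agent.Helper19.TH.MON
import Pool.Agent.Helper42.TH.DIF
import Pool.Agent.Helper79.TH.CONT
import Pool.Agent.Helper69.TH.CVX
import Pool.Agent.Helper13.TH.NG
import Pool.Agent.Helper16.TH.PC
import Pool.Agent.Helper56.TH.PW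
import Pool.Agent.Helper75.TH.SUM
import Pool.Agent.Helper15.TH.MG
import Pool.Agent.Helper20.TH.SLP
import Pool.Agent.Helper35.TH.PSL
import Pool.Agent.Helper82.TH.DM
import Pool.Agent.Helper35.TH.N3
import Pool.Agent.Helper34.TH.C3
import Pool.Agent.Helper32.TH.C4
import Pool.Agent.Helper63.TH.C5
import Pool.Agent.Helper88.TH.LB
import Pool.Agent.Helper83.TH.VAL
import Pool.Agent.Helper8.TH.PV

/-!
# MP_705522_gt: for every `n ≥ 3` exactly one threshold
-/

namespace Pool.Agent.Helper63.TH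

open MeasureTheory Set Filter Topology
open Pool.Agent.Helper53.PT

theorem pk : Pk where
  sq := Pool.Agent.Helper90.PT.gSQ
  ex := Pool.Agent.Helper3.PT.gEXP
  ln := Pool.Agent.Helper35.PT.gLN
  po := Pool.Agent.Helper35.PT.gPOW
  fl := Pool.Agent.Helper55.PT.gFLD
  gr := gGRID
  tb := Pool.Agent.Helper20.PT.gTB
  ch := Pool.Agent.Helper8.PT.gCHF
  fi := bFI
  num := Pool.Agent.Helper63.P705.num_ok
  k2b := Pool.Agent.Helper50.TH.gK2B
  cxo := Pool.Agent.Helper93.TH.gCXO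
  vp := Pool.Agent.Helper4.TH.gVP
  mon := Pool.Agent.Helper19.TH.gMON
  dif := Pool.Agent.Helper42.TH.gDIF
  cont := Pool.Agent.Helper79.TH.gCONT
  cvx := Pool.Agent.Helper69.TH.gCVX
  ng := Pool.Agent.Helper13.TH.gNG
  pc := Pool.Agent.Helper16.TH.gPC
  pw := Pool.Agent.Helper56.TH.gPW
  sm := Pool.Agent.Helper75.TH.gSUM
  mg := Pool.Agent.Helper15.TH.gMG
  slp := Pool.Agent.Helper20.TH.gSLP
  psl := Pool.Agent.Helper35.TH.gPSL
  dm := Pool.Agent.Helper82.TH.gDM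
  n3 := Pool.Agent.Helper35.TH.gN3
  c3 := Pool.Agent.Helper34.TH.gC3
  c4 := Pool.Agent.Helper32.TH.gC4
  c5 := gC5
  lb := Pool.Agent.Helper88.TH.gLB
  val := Pool.Agent.Helper83.TH.gVAL
  pv := Pool.Agent.Helper8.TH.gPV

/-- For every `n ≥ 3` there is exactly one `th` in `(1/4,1/2)` such that the pair diagonals are better than the main
diagonal for `θ < th` and the main diagonal is better for `θ > th`. -/
theorem thr (n : ℕ) (hn : 3 ≤ n) :
    ∃ th : ℝ, 1 / 4 < th ∧ th < 1 / 2 ∧ (∀ θ, 1 / 4 ≤ θ → θ < th → P θ < V θ n) ∧ V th n = P th ∧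
      ∀ θ, th < θ → θ < 1 / 2 → V θ n < P θ :=
  thr_of pk (cells pk) gt_all n hn

/-- The thresholds are strictly decreasing in `n`. -/
theorem anti {m n : ℕ} (h3 : 3 ≤ m) (hmn : m < n) {s t : ℝ} (hs : 1 / 4 < s) (hs2 : s < 1 / 2)
    (es : V s m = P s) (ht : ∀ θ, 1 / 4 ≤ θ → θ < t → P θ < V θ n) (et : V t n = P t) : t < s :=
  thr_anti pk.vp pk.mon gt_all h3 hmn hs hs2 es ht et

/-- In terms of `p`: for every `n ≥ 3` there is exactly one `q n` in `(4/3, 2)` such that the pair diagonals are better for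
`1 < p < q n` and the main diagonal is better for `q n < p < 2`; `q n` is strictly decreasing, with limit `4/3`. -/
theorem thrP : ∃ q : ℕ → ℝ,
    (∀ n, 3 ≤ n → 4 / 3 < q n ∧ q n < 2 ∧
      (∀ p : ℝ, 1 < p → p < q n → (2 : ℝ) ^ (1 / 2 - 1 / p) < JJ p n) ∧
      JJ (q n) n = (2 : ℝ) ^ (1 / 2 - 1 / q n) ∧
      (∀ p : ℝ, q n < p → p < 2 → JJ p n < (2 : ℝ) ^ (1 / 2 - 1 / p))) ∧
    (∀ m n, 3 ≤ m → m < n → q n < q m) ∧ Tendsto q atTop (𝓝 (4 / 3)) :=
  thr_p_of pk.vp pk.mon gt_all thr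

end Pool.Agent.Helper63.TH
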